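import Pool.Agent.KS6_24.LI.Form
import Pool.Graph.R_pool_sql_team_seeded_3997aac3.Results.MP_f7abf1_nt.CoalescenceConstant

/-! A residue class modulo `2 ^ (30 k)` on which the block of `2 ^ k` consecutive integers has only
`O(√k)` different forms (from the mean number of values of the starting library). -/

set_option autoImplicit false

namespace Pool.Agent.KS6_24.LI

open Finset

/-- The word of the binary digits of `c`. -/
def wd : ℕ → ℕ → List ℤ
  | 0, _ => []
  | t + 1, c => ((c % 2 : ℕ) : ℤ) :: wd t (c / 2)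

theorem wd_length (t c : ℕ) : (wd t c).length = t := by
  induction t generalizing c with
  | zero => rfl
  | succ t ih => simp [wd, ih]

theorem dig_wd (t c : ℕ) (h : c < 2 ^ t) : dig (wd t c) = c := by
  induction t generalizing c with
  | zero =>
    have : c = 0 := by simpa using h
    subst this; rfl
  | succ t ih =>
    simp only [wd, dig]
    rw [ih (c / 2) (by rw [pow_succ] at h; omega)]
    omega

/-- The forms of the block of `L` consecutive integers. -/
def F₀ (L : ℕ) : Finset Form := (range L).image (fun h : ℕ => ((0, (h : ℤ)) : Form))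

theorem card_F₀_le (L : ℕ) : (F₀ L).card ≤ L := by
  unfold F₀; exact card_image_le.trans (by simp)

/-- Two different forms agree at most at one place. -/
theorem ev_inj {f g : Form} (hfg : f ≠ g) {m m' : ℤ} (h : ev m f = ev m g) (h' : ev m' f = ev m' g) : m = m' := by
  obtain ⟨a, b⟩ := f
  obtain ⟨c, e⟩ := g
  simp only [ev] at h h'
  have h1 : ((3 : ℤ) ^ a - 3 ^ c) * (m - m') = 0 := by linear_combination h - h'
  rcases mul_eq_zero.1 h1 with h2 | h2
  · exfalso
    apply hfg
    have h3 : (3 : ℤ) ^ a = 3 ^ c := by linarith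
    have h4 : a = c := Int.pow_right_injective (a := 3) (by decide) h3
    subst h4
    have : b = e := by linarith
    rw [this]
  · linarith

theorem count_forms (F : Finset Form) (w : ℕ) :
    ((w : ℝ) - F.card ^ 2) * F.card ≤ ∑ m ∈ range w, ((F.image (ev (m : ℤ))).card : ℝ) := by
  classical
  set bad : Finset ℕ := (range w).filter (fun m : ℕ => ¬ Set.InjOn (ev (m : ℤ)) F) with hbad
  have hb : bad.card ≤ F.card ^ 2 := by
    have hsub : bad ⊆ (F.offDiag).biUnion (fun p => (range w).filter (fun m : ℕ => ev (m : ℤ) p.1 = ev (m : ℤ) p.2)) := by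
      intro m hm
      rw [hbad, mem_filter] at hm
      obtain ⟨hm1, hm2⟩ := hm
      unfold Set.InjOn at hm2
      push Not at hm2
      obtain ⟨f, hf, g, hg, h1, h2⟩ := hm2
      rw [mem_biUnion]
      refine ⟨(f, g), mem_offDiag.2 ⟨hf, hg, h2⟩, mem_filter.2 ⟨hm1, h1⟩⟩
    refine (card_le_card hsub).trans (card_biUnion_le.trans ?_)
    have h1 : ∀ p ∈ F.offDiag, ((range w).filter (fun m : ℕ => ev (m : ℤ) p.1 = ev (m : ℤ) p.2)).card ≤ 1 := by
      intro p hp
      rw [mem_offDiag] at hp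
      rw [card_le_one]
      intro a ha b hb
      rw [mem_filter] at ha hb
      exact_mod_cast ev_inj hp.2.2 ha.2 hb.2
    refine (sum_le_sum h1).trans ?_
    rw [sum_const, smul_eq_mul, mul_one, offDiag_card, pow_two]
    exact Nat.sub_le _ _
  have hgood : ∀ m ∈ (range w) \ bad, ((F.image (ev (m : ℤ))).card : ℝ) = F.card := by
    intro m hm
    rw [mem_sdiff, hbad, mem_filter] at hm
    have : Set.InjOn (ev (m : ℤ)) F := by
      by_contra hcon
      exact hm.2 ⟨hm.1, hcon⟩
    rw [card_image_of_injOn this]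
  have h1 : ∑ m ∈ (range w) \ bad, ((F.image (ev (m : ℤ))).card : ℝ) ≤
      ∑ m ∈ range w, ((F.image (ev (m : ℤ))).card : ℝ) :=
    sum_le_sum_of_subset_of_nonneg sdiff_subset (fun _ _ _ => Nat.cast_nonneg _)
  refine le_trans ?_ h1
  rw [sum_congr rfl hgood, sum_const, nsmul_eq_mul]
  apply mul_le_mul_of_nonneg_right _ (Nat.cast_nonneg _)
  have h2 : (range w).card ≤ ((range w) \ bad).card + bad.card := by
    have := le_card_sdiff bad (range w)
    omega
  rw [card_range] at h2
  have h3 : w ≤ ((range w) \ bad).card + F.card ^ 2 := by omega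
  have h4 : (w : ℝ) ≤ ((range w) \ bad).card + (F.card : ℝ) ^ 2 := by exact_mod_cast h3
  linarith

theorem sum_range_mul' (f : ℕ → ℝ) (q w : ℕ) :
    ∑ n ∈ range (q * w), f n = ∑ m ∈ range w, ∑ c ∈ range q, f (q * m + c) := by
  induction w with
  | zero => simp
  | succ w ih => rw [mul_add, mul_one, sum_range_add, ih, sum_range_succ]

theorem sum_Ico_int (f : ℤ → ℝ) (W : ℕ) : ∑ n ∈ Ico (0 : ℤ) (0 + W), f n = ∑ n ∈ range W, f n := by
  rw [zero_add]
  symm
  apply sum_bij (fun (n : ℕ) _ => (n : ℤ))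
  · intro n hn
    rw [mem_range] at hn
    rw [mem_Ico]
    constructor
    · positivity
    · exact_mod_cast hn
  · intro a _ b _ h
    exact_mod_cast h
  · intro b hb
    rw [mem_Ico] at hb
    refine ⟨b.toNat, ?_, ?_⟩
    · rw [mem_range]; omega
    · omega
  · intro n _; rfl

open Pool.Agent.Results.MP_f7abf1_nt.CoalescenceConstant (values)

theorem values_eq (L t c m : ℕ) (hc : c < 2 ^ t) :
    values L t ((2 ^ t * m + c : ℕ) : ℤ) = (((F₀ L).image (run (wd t c))).image (ev (m : ℤ))).card := by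
  unfold values
  rw [← Set.ncard_coe_finset]
  congr 1
  ext y
  simp only [Set.mem_ofPred_eq, coe_image, Set.mem_image, F₀, coe_range, Set.mem_Iio]
  have key : ∀ j : ℕ, Pool.Agent.Results.MP_f7abf1_nt.CoalescenceConstant.T^[t] (((2 ^ t * m + c : ℕ) : ℤ) + j)
      = ev (m : ℤ) (run (wd t c) (0, (j : ℤ))) := by
    intro j
    have h1 := T_run (wd t c) m (0, (j : ℤ))
    rw [wd_length, dig_wd t c hc] at h1
    rw [← h1]
    congr 1
    simp [ev]
  constructor
  · rintro ⟨j, hj, rfl⟩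
    exact ⟨_, ⟨_, ⟨j, hj, rfl⟩, rfl⟩, (key j).symm⟩
  · rintro ⟨_, ⟨_, ⟨j, hj, rfl⟩, rfl⟩, rfl⟩
    exact ⟨j, hj, (key j).symm⟩

theorem stageA : ∃ C : ℝ, 0 < C ∧ ∀ k : ℕ, 2 ≤ k → ∃ w : List ℤ, w.length = 30 * k ∧
    (((F₀ (2 ^ k)).image (run w)).card : ℝ) ≤ C * √k := by
  obtain ⟨γ, hγ1, hγ2, -, -, h⟩ := Pool.Agent.Results.MP_f7abf1_nt.CoalescenceConstant.result
  obtain ⟨c, C, δ, hc, hC, hδ, -, -, h3, -⟩ := h 1 one_pos
  refine ⟨2 + 2 * C, by positivity, ?_⟩
  intro k hk
  have hkR : (2 : ℝ) ≤ k := by exact_mod_cast hk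
  set L : ℕ := 2 ^ k with hL
  set t : ℕ := 30 * k with ht
  have hL3 : 3 ≤ L := by
    have : 2 ^ 2 ≤ 2 ^ k := Nat.pow_le_pow_right (by norm_num) hk
    omega
  have hlogL : Real.log L = k * Real.log 2 := by
    rw [hL]; push_cast; rw [Real.log_pow]
  have hlog2 : Real.log 2 < 0.6931471808 := Real.log_two_lt_d9
  have hlog2' : 0 < Real.log 2 := Real.log_pos (by norm_num)
  have hγt : (γ + 1) * Real.log L ≤ t := by
    rw [hlogL, ht]; push_cast
    have h1 : (γ + 1) * Real.log 2 ≤ 42.6777 * 0.6931471808 :=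
      mul_le_mul (by linarith) hlog2.le hlog2'.le (by norm_num)
    have h2 : (42.6777 * 0.6931471808 : ℝ) ≤ 30 := by norm_num
    nlinarith
  set w : ℕ := 2 * L ^ 2 + 64 * t with hw
  have hW : 64 * t * 2 ^ t ≤ 2 ^ t * w := by
    rw [hw, mul_add]
    have : 64 * t * 2 ^ t = 2 ^ t * (64 * t) := by ring
    omega
  have hmain := (h3 L t hL3 hγt 0 (2 ^ t * w) hW).2
  rw [sum_Ico_int, sum_range_mul', sum_comm] at hmain
  -- the ratio
  have hratio : Real.log L / √ (t : ℝ) ≤ √ (k : ℝ) := by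
    have ht0 : (0 : ℝ) < t := by rw [ht]; push_cast; linarith
    rw [div_le_iff₀ (Real.sqrt_pos.2 ht0), ← Real.sqrt_mul (by positivity)]
    apply Real.le_sqrt_of_sq_le
    rw [hlogL, ht]; push_cast
    have h1 : Real.log 2 ^ 2 ≤ 1 := by nlinarith
    have h2 : (k : ℝ) * Real.log 2 * (k * Real.log 2) = k ^ 2 * Real.log 2 ^ 2 := by ring
    nlinarith
  by_contra hcon
  push Not at hcon
  have hk1 : 1 ≤ √ (k : ℝ) := Real.one_le_sqrt.2 (by linarith)
  have hbig : ∀ c ∈ range (2 ^ t), (w : ℝ) / 2 * ((2 + 2 * C) * √ (k : ℝ)) <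
      ∑ m ∈ range w, (values L t (((2 ^ t * m + c : ℕ) : ℤ)) : ℝ) := by
    intro c hc
    rw [mem_range] at hc
    have h1 := hcon (wd t c) (wd_length t c)
    have h2 := count_forms ((F₀ L).image (run (wd t c))) w
    have h4 : (((F₀ L).image (run (wd t c))).card : ℝ) ≤ L := by
      exact_mod_cast card_image_le.trans (card_F₀_le L)
    have e : ∑ m ∈ range w, (values L t (((2 ^ t * m + c : ℕ) : ℤ)) : ℝ)
        = ∑ m ∈ range w, ((((F₀ L).image (run (wd t c))).image (ev (m : ℤ))).card : ℝ) := by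
      apply sum_congr rfl
      intro m _
      rw [values_eq L t c m hc]
    rw [e]
    refine lt_of_lt_of_le ?_ h2
    set N : ℝ := (((F₀ L).image (run (wd t c))).card : ℝ) with hN
    have hN0 : 0 ≤ N := Nat.cast_nonneg _
    have h5 : N ^ 2 ≤ (L : ℝ) ^ 2 := pow_le_pow_left₀ hN0 h4 2
    have h6 : (w : ℝ) / 2 ≤ w - N ^ 2 := by
      have : (w : ℝ) = 2 * L ^ 2 + 64 * t := by rw [hw]; push_cast; ring
      have : (0 : ℝ) ≤ t := Nat.cast_nonneg _
      linarith
    have h7 : (0 : ℝ) < w := by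
      have : 0 < w := by rw [hw]; positivity
      exact_mod_cast this
    calc (w : ℝ) / 2 * ((2 + 2 * C) * √ (k : ℝ)) < w / 2 * N := mul_lt_mul_of_pos_left h1 (by positivity)
      _ ≤ (w - N ^ 2) * N := mul_le_mul_of_nonneg_right h6 hN0
  have hsum := sum_lt_sum_of_nonempty (s := range (2 ^ t)) ⟨0, mem_range.2 (by positivity)⟩ hbig
  rw [sum_const, card_range, nsmul_eq_mul] at hsum
  have hlt := lt_of_lt_of_le hsum hmain
  push_cast at hlt
  have h8 : (0 : ℝ) < 2 ^ t * w := by
    have : 0 < w := by rw [hw]; positivity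
    have : (0 : ℝ) < w := by exact_mod_cast this
    positivity
  have h9 : (1 + C * (Real.log L / √ (t : ℝ))) * (2 ^ t * (w : ℝ)) ≤ ((1 + C) * √ (k : ℝ)) * (2 ^ t * w) := by
    apply mul_le_mul_of_nonneg_right _ h8.le
    have := mul_le_mul_of_nonneg_left hratio hC.le
    linarith
  have h10 : (2 : ℝ) ^ t * (w / 2 * ((2 + 2 * C) * √ (k : ℝ))) = ((1 + C) * √ (k : ℝ)) * (2 ^ t * w) := by ring
  rw [h10] at hlt
  linarith

end Pool.Agent.KS6_24.LI
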