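import Pool.Agent.KS6_24.LI.Rec
import Pool.Agent.KS6_24.LI.StageA

/-! A residue class modulo `2 ^ T`, `T = O(k)`, on which the trajectories of `2 ^ k` consecutive integers
have merged at the time `T`. -/

set_option autoImplicit false

namespace Pool.Agent.KS6_24.LI

open Finset
open Pool.Agent.H499R2.CO (v)

theorem asym (C : ℝ) (hC : 0 < C) : ∃ K₀ : ℕ, ∀ k : ℕ, K₀ ≤ k → ∀ (M : ℕ) (μ β : ℝ),
    M = Nat.log 2 (300 * k + 1) + 10 → μ = 1 / (2 * (21 * M + 32) ^ 2) → β = Real.log (12 / μ) + 3 →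
    4 / μ * (β * (C * √k) + 1 + C * √k) + 364 * M + 669 < 15240 * k := by
  set X : ℝ := 4232 * 13001 * (C + 1) * 54 ^ 4 + 10 ^ 6 with hX
  have hX1 : 1 ≤ X := by
    have : 0 ≤ 4232 * 13001 * (C + 1) * 54 ^ 4 := by positivity
    rw [hX]; linarith
  refine ⟨⌈X ^ 16⌉₊ + 1, ?_⟩
  intro k hk M μ β hM hμ hβ
  have hk1 : 1 ≤ k := by omega
  have hkX : X ^ 16 ≤ (k : ℝ) := by
    have h1 := Nat.le_ceil (X ^ 16)
    have h2 : ((⌈X ^ 16⌉₊ + 1 : ℕ) : ℝ) ≤ k := by exact_mod_cast hk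
    push_cast at h2; linarith
  have hk0 : (0 : ℝ) < k := by exact_mod_cast hk1
  set s : ℝ := (k : ℝ) ^ (1 / 16 : ℝ) with hs
  have hs16 : s ^ 16 = k := by
    rw [hs, ← Real.rpow_natCast, ← Real.rpow_mul hk0.le]; norm_num
  have hs0 : 0 < s := Real.rpow_pos_of_pos hk0 _
  have hsX : X ≤ s := by
    by_contra hcon
    push Not at hcon
    have : s ^ 16 < X ^ 16 := pow_lt_pow_left₀ hcon hs0.le (by norm_num)
    linarith
  have hs1 : 1 ≤ s := hX1.trans hsX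
  have hsq : √ (k : ℝ) = s ^ 8 := by
    rw [Real.sqrt_eq_iff_mul_self_eq hk0.le (by positivity), ← hs16]; ring
  have hlogk : Real.log k ≤ 16 * s := by
    rw [← hs16, Real.log_pow]
    have := Real.log_le_sub_one_of_pos hs0
    push_cast; linarith
  -- M
  have hMl : (M : ℝ) ≤ 54 * s := by
    rw [hM]; push_cast
    have h1 : (Nat.log 2 (300 * k + 1) : ℝ) ≤ 2 * Real.log (300 * k + 1) := by
      have h2 : (2 : ℝ) ^ Nat.log 2 (300 * k + 1) ≤ 300 * k + 1 := by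
        exact_mod_cast Nat.pow_log_le_self 2 (by omega : 300 * k + 1 ≠ 0)
      have h3 := Real.log_le_log (by positivity) h2
      rw [Real.log_pow] at h3
      have h4 : (1 : ℝ) / 2 ≤ Real.log 2 := by
        have := Real.log_two_gt_d9; linarith
      have h5 : (0 : ℝ) ≤ Nat.log 2 (300 * k + 1) := Nat.cast_nonneg _
      nlinarith
    have h2 : Real.log (300 * k + 1) ≤ 6 + Real.log k := by
      have h3 : Real.log (300 * k + 1) ≤ Real.log (301 * k) := by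
        apply Real.log_le_log (by positivity)
        have : (1 : ℝ) ≤ k := by exact_mod_cast hk1
        linarith
      have h4 : Real.log (301 * k) = Real.log 301 + Real.log k := Real.log_mul (by norm_num) hk0.ne'
      have h5 : Real.log 301 ≤ 6 := by
        rw [Real.log_le_iff_le_exp (by norm_num)]
        have h6 : (2.7 : ℝ) ≤ Real.exp 1 := by have := Real.exp_one_gt_d9; linarith
        have h7 : Real.exp 6 = Real.exp 1 ^ 6 := by rw [← Real.exp_nat_mul]; norm_num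
        rw [h7]
        calc (301 : ℝ) ≤ 2.7 ^ 6 := by norm_num
          _ ≤ _ := pow_le_pow_left₀ (by norm_num) h6 6
      linarith
    linarith
  have hM0 : (10 : ℝ) ≤ M := by
    rw [hM]; push_cast
    have : (0 : ℝ) ≤ Nat.log 2 (300 * k + 1) := Nat.cast_nonneg _
    linarith
  set D : ℝ := 21 * M + 32 with hD
  have hD0 : 0 < D := by rw [hD]; linarith
  have hμ0 : 0 < μ := by rw [hμ]; positivity
  have hinv : 1 / μ = 2 * D ^ 2 := by rw [hμ]; field_simp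
  set l : ℝ := 54 * s with hl
  have hl1 : 54 ≤ l := by rw [hl]; linarith
  have hDl : D ≤ 23 * l := by rw [hD]; linarith
  have hinv2 : 1 / μ ≤ 1058 * l ^ 2 := by
    rw [hinv]
    have : D ^ 2 ≤ (23 * l) ^ 2 := pow_le_pow_left₀ hD0.le hDl 2
    nlinarith
  have hl2 : 1 ≤ l ^ 2 := one_le_pow₀ (by linarith)
  have hβl : β ≤ 13000 * l ^ 2 := by
    rw [hβ]
    have h1 : Real.log (12 / μ) ≤ 12 / μ - 1 := Real.log_le_sub_one_of_pos (by positivity)
    have h2 : 12 / μ ≤ 12 * (1058 * l ^ 2) := by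
      have h2 : 12 / μ = 12 * (1 / μ) := by ring
      rw [h2]; linarith
    linarith
  have hβ0 : 0 ≤ β := by
    rw [hβ]
    have : 0 ≤ Real.log (12 / μ) := by
      apply Real.log_nonneg
      have h2 : 12 / μ = 12 * (2 * D ^ 2) := by rw [← hinv]; ring
      rw [h2]
      have : 1 ≤ D ^ 2 := one_le_pow₀ (by rw [hD]; linarith)
      linarith
    linarith
  have hs8 : 1 ≤ s ^ 8 := one_le_pow₀ hs1
  rw [hsq]
  have h1 : β * (C * s ^ 8) + 1 + C * s ^ 8 ≤ 13001 * (C + 1) * (l ^ 2 * s ^ 8) := by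
    have a1 : β * (C * s ^ 8) ≤ 13000 * l ^ 2 * (C * s ^ 8) := mul_le_mul_of_nonneg_right hβl (by positivity)
    have a2 : C * s ^ 8 ≤ C * (l ^ 2 * s ^ 8) := by
      apply mul_le_mul_of_nonneg_left _ hC.le
      exact le_mul_of_one_le_left (by positivity) hl2
    have a3 : 1 ≤ l ^ 2 * s ^ 8 := one_le_mul_of_one_le_of_one_le hl2 hs8
    have a4 : 0 ≤ l ^ 2 * s ^ 8 := by positivity
    nlinarith
  have h2 : 4 / μ * (β * (C * s ^ 8) + 1 + C * s ^ 8) ≤
      4 * (1058 * l ^ 2) * (13001 * (C + 1) * (l ^ 2 * s ^ 8)) := by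
    have e : 4 / μ = 4 * (1 / μ) := by ring
    rw [e]
    apply mul_le_mul _ h1 (by positivity) (by positivity)
    linarith
  have h3 : 4 * (1058 * l ^ 2) * (13001 * (C + 1) * (l ^ 2 * s ^ 8)) =
      (4232 * 13001 * (C + 1) * 54 ^ 4) * s ^ 12 := by rw [hl]; ring
  have h4 : 364 * (M : ℝ) + 669 ≤ 10 ^ 6 * s ^ 12 := by
    have : s ≤ s ^ 12 := le_self_pow₀ hs1 (by norm_num)
    linarith
  have h5 : 4 / μ * (β * (C * s ^ 8) + 1 + C * s ^ 8) + 364 * M + 669 ≤ X * s ^ 12 := by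
    rw [hX]; linarith
  have h6 : X * s ^ 12 ≤ s ^ 13 := by
    have := mul_le_mul_of_nonneg_right hsX (by positivity : 0 ≤ s ^ 12)
    calc X * s ^ 12 ≤ s * s ^ 12 := this
      _ = s ^ 13 := by ring
  have h7 : s ^ 13 ≤ s ^ 16 := pow_le_pow_right₀ hs1 (by norm_num)
  rw [← hs16]
  have h8 : 0 < s ^ 16 := by positivity
  linarith

theorem core : ∃ K₀ : ℕ, 2 ≤ K₀ ∧ ∀ k : ℕ, K₀ ≤ k → ∃ w : List ℤ, w.length ≤ 50000 * k ∧
    ((F₀ (2 ^ k)).image (run w)).card ≤ 1 := by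
  obtain ⟨C, hC, hA⟩ := stageA
  obtain ⟨K₀, hK₀⟩ := asym C hC
  refine ⟨max K₀ 2, le_max_right _ _, ?_⟩
  intro k hk
  have hk2 : 2 ≤ k := (le_max_right _ _).trans hk
  have hkK : K₀ ≤ k := (le_max_left _ _).trans hk
  obtain ⟨w₁, hw1, hcard⟩ := hA k hk2
  set A₀ := F₀ (2 ^ k) with hA0
  set A₁ := A₀.image (run w₁) with hA1
  have hmem0 : ((0, 0) : Form) ∈ A₀ := by
    rw [hA0, F₀, mem_image]
    exact ⟨0, mem_range.2 (by positivity), rfl⟩
  have hA0f : ∀ z ∈ A₀, z.1 = 0 ∧ 0 ≤ bt z ∧ bt z ≤ 2 ^ k := by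
    intro z hz
    rw [hA0, F₀, mem_image] at hz
    obtain ⟨h, hh, rfl⟩ := hz
    rw [mem_range] at hh
    refine ⟨rfl, ?_, ?_⟩
    · simp [bt]
    · simp only [bt, pow_zero, div_one]
      have : (h : ℝ) ≤ ((2 ^ k : ℕ) : ℝ) := by exact_mod_cast hh.le
      push_cast at this
      exact_mod_cast this
  have hdia0 : ∀ z ∈ A₀, ∀ z' ∈ A₀, |bt z - bt z'| ≤ 2 ^ k / 3 ^ 0 := by
    intro z hz z' hz'
    have h1 := hA0f z hz
    have h2 := hA0f z' hz'
    rw [pow_zero, div_one, abs_le]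
    constructor <;> linarith [h1.2.1, h1.2.2, h2.2.1, h2.2.2]
  have hdia1 := dia_run w₁ (e := 0) (fun z _ => Nat.zero_le _) hdia0
  obtain ⟨y₁, hy1, hlow1⟩ := exists_low (⟨_, mem_image_of_mem _ hmem0⟩ : A₁.Nonempty)
  have hlev1 : ∀ z ∈ A₁, z.1 ≤ 30 * k := by
    intro z hz
    obtain ⟨x, hx, rfl⟩ := mem_image.1 hz
    have := run_le w₁ x
    rw [(hA0f x hx).1, hw1] at this
    omega
  have hdia1' : ∀ z ∈ A₁, ∀ z' ∈ A₁, |bt z - bt z'| ≤ (4 / 3 * 3 ^ (30 * k)) / 3 ^ y₁.1 := by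
    intro z hz z' hz'
    refine (hdia1 z hz z' hz').trans ?_
    rw [hw1, pow_zero, div_one]
    have h1 : (2 : ℝ) ^ k / 2 ^ (30 * k) ≤ 1 := by
      rw [div_le_one (by positivity)]
      exact pow_le_pow_right₀ (by norm_num) (by omega)
    have h2 : (3 : ℝ) ^ y₁.1 ≤ 3 ^ (30 * k) := pow_le_pow_right₀ (by norm_num) (hlev1 _ hy1)
    rw [le_div_iff₀ (by positivity)]
    calc (2 ^ k / 2 ^ (30 * k) + 1 / 3) * 3 ^ y₁.1 ≤ (1 + 1 / 3) * 3 ^ (30 * k) :=
          mul_le_mul (by linarith) h2 (by positivity) (by norm_num)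
      _ = _ := by norm_num
  have hj : 3 / 2 * (4 / 3 * 3 ^ (30 * k)) ≤ (2 : ℝ) ^ (60 * k + 1) := by
    have h1 : (3 : ℝ) ^ (30 * k) ≤ 4 ^ (30 * k) := pow_le_pow_left₀ (by norm_num) (by norm_num) _
    have h2 : (2 : ℝ) ^ (60 * k + 1) = 2 * 4 ^ (30 * k) := by
      rw [pow_succ, show 60 * k = 2 * (30 * k) by ring, pow_mul]; norm_num; ring
    rw [h2]; linarith
  obtain ⟨w₂, hw2, hok, -⟩ := rest hy1 hlow1 hdia1' (60 * k + 1) hj
  set A₂ := A₁.image (run w₂) with hA2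
  set y₂ := run w₂ y₁ with hy2
  set I := 300 * k with hI
  set M := Nat.log 2 (I + 1) + 10 with hM
  set μ : ℝ := 1 / (2 * (21 * M + 32) ^ 2) with hμ
  set β : ℝ := Real.log (12 / μ) + 3 with hβ
  have hp : Par I M μ := ⟨fun l hl => (v_le_log hl).trans (by omega), by omega, hμ⟩
  have hμ0 := hp.pos
  have hβ0 : 0 ≤ β := by
    have : 0 ≤ Real.log (12 / μ) := by
      apply Real.log_nonneg
      rw [le_div_iff₀ hμ0]
      have := hp.small; linarith
    rw [hβ]; linarith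
  have hasym := hK₀ k hkK M μ β hM hμ hβ
  have hcard2 : (A₂.card : ℝ) ≤ C * √ (k : ℝ) := by
    refine le_trans ?_ hcard
    exact_mod_cast card_image_le
  have hlev2 : ∀ z ∈ A₂, z.1 - y₂.1 ≤ 91 * k := by
    intro z hz
    obtain ⟨x, hx, rfl⟩ := mem_image.1 hz
    have h1 := run_le w₂ x
    have h2 := hlev1 x hx
    omega
  have hinit := Wt_init hp hβ0 (by omega : 91 * k ≤ I) hlev2 hcard2
  set n : ℕ := ⌈4 / μ * (β * (C * √ (k : ℝ)) + 1 + C * √ (k : ℝ)) + 4 * (90 * ((91 * k : ℕ) : ℝ) + 91 * M + 167)⌉₊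
    with hn
  have hk0 : (0 : ℝ) ≤ k := Nat.cast_nonneg _
  have hM0 : (0 : ℝ) ≤ M := Nat.cast_nonneg _
  have hn1 : 4 / μ * (β * (C * √ (k : ℝ)) + 1 + C * √ (k : ℝ)) + 4 * (90 * ((91 * k : ℕ) : ℝ) + 91 * M + 167) ≤ n :=
    Nat.le_ceil _
  have hn2 : (n : ℝ) < 48000 * k := by
    have h1 : (n : ℝ) < _ := Nat.ceil_lt_add_one (by positivity)
    push_cast at h1
    linarith
  have hn3 : n < 160 * I := by
    have : (n : ℝ) < ((160 * I : ℕ) : ℝ) := by rw [hI]; push_cast; linarith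
    exact_mod_cast this
  have hWt : Wt I μ (μ / 12) β A₂ y₂ 1 ≤ Real.exp (μ / 4 * n) := by
    refine hinit.trans (Real.exp_le_exp.2 ?_)
    have h1 := mul_le_mul_of_nonneg_left hn1 (by positivity : 0 ≤ μ / 4)
    have e : μ / 4 * (4 / μ * (β * (C * √ (k : ℝ)) + 1 + C * √ (k : ℝ)) + 4 * (90 * ((91 * k : ℕ) : ℝ) + 91 * M + 167))
        = β * (C * √ (k : ℝ)) + 1 + C * √ (k : ℝ) + μ * (90 * ((91 * k : ℕ) : ℝ) + 91 * M + 167) := by
      field_simp
    rw [e] at h1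
    exact h1
  obtain ⟨w₃, hw3, hfin⟩ := collapse hp (le_of_eq hβ.symm) n hn3 A₂ y₂ 1 hok hWt
  refine ⟨w₁ ++ (w₂ ++ w₃), ?_, ?_⟩
  · rw [List.length_append, List.length_append, hw1, hw2]
    have : (n : ℝ) < ((48000 * k : ℕ) : ℝ) := by push_cast; exact hn2
    have : n < 48000 * k := by exact_mod_cast this
    omega
  · rw [image_run_append, image_run_append]; exact hfin

/-- Consequence for the Collatz map: a common time. -/
theorem core_C : ∃ K₀ : ℕ, ∀ k : ℕ, K₀ ≤ k → ∃ (t τ : ℕ) (a : ℤ), t ≤ 50000 * k ∧ τ ≤ 100000 * k ∧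
    ∀ n : ℤ, n ≡ a [ZMOD 2 ^ t] → ∀ h : ℕ, h < 2 ^ k → C^[τ] (n + h) = C^[τ] n := by
  obtain ⟨K₀, hK2, hK₀⟩ := core
  refine ⟨K₀, fun k hk => ?_⟩
  obtain ⟨w, hw, hcard⟩ := hK₀ k hk
  have hsame : ∀ h : ℕ, h < 2 ^ k → run w (0, (h : ℤ)) = run w (0, 0) := by
    intro h hh
    rw [card_le_one] at hcard
    apply hcard
    · exact mem_image_of_mem _ (mem_image.2 ⟨h, mem_range.2 hh, rfl⟩)
    · exact mem_image_of_mem _ (mem_image.2 ⟨0, mem_range.2 (by positivity), rfl⟩)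
  refine ⟨w.length, w.length + (run w (0, 0)).1, dig w, hw, ?_, ?_⟩
  · have := run_le w (0, 0)
    simp only at this
    omega
  · intro n hn h hh
    obtain ⟨m, hm⟩ : ∃ m, n = 2 ^ w.length * m + dig w := by
      obtain ⟨m, hm⟩ := hn.symm.dvd
      exact ⟨m, by linarith⟩
    have key : ∀ h : ℕ, h < 2 ^ k → C^[w.length + (run w (0, 0)).1] (n + h) = ev m (run w (0, 0)) := by
      intro h hh
      have h1 := C_run w m (0, (h : ℤ))
      rw [hsame h hh, Nat.sub_zero] at h1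
      rw [← h1, hm]
      simp [ev]
    have k0 := key 0 (by positivity)
    simp only [Nat.cast_zero, add_zero] at k0
    rw [key h hh, k0]

end Pool.Agent.KS6_24.LI
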