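import Pool.Agent.KS6_24.LI.Core
import Pool.Graph.R_seed8.Results.MP_d02c56_nt.LevelOfDistribution

/-! Long intervals inside the invariant sets. -/

set_option autoImplicit false

namespace Pool.Agent.KS6_24.LI

open Finset Filter Topology
open Pool.Agent.Results.MP_d02c56_nt.LevelOfDistribution (Invariant HasDensity count)

theorem inv_iter {S : Set ℤ} (hS : Invariant S) (k : ℕ) (x : ℤ) : x ∈ S ↔ C^[k] x ∈ S := by
  induction k generalizing x with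
  | zero => rfl
  | succ k ih =>
    rw [Function.iterate_succ_apply]
    exact (hS x).trans (ih (C x))

theorem growth {c₀ : ℝ} (δ : ℝ) (hc₀ : 0 < c₀) : ∃ N₁ : ℕ, 4 ≤ N₁ ∧ ∀ N : ℕ, N₁ ≤ N →
    (N : ℝ) ^ (c₀ / 2) ≤ ((N / 2 : ℕ) : ℝ) ^ c₀ ∧ (16 / δ) ^ 2 ≤ (N : ℝ) := by
  have t1 : ∀ a : ℝ, 0 < a → Tendsto (fun N : ℕ => (N : ℝ) ^ a) atTop atTop := fun a ha =>
    (tendsto_rpow_atTop ha).comp tendsto_natCast_atTop_atTop
  have e1 := (t1 (c₀ / 2) (by positivity)).eventually_ge_atTop (4 ^ c₀)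
  have e2 := (tendsto_natCast_atTop_atTop (R := ℝ)).eventually_ge_atTop ((16 / δ) ^ 2)
  obtain ⟨N₁, hN₁⟩ := eventually_atTop.1 (e1.and (e2.and (eventually_ge_atTop 4)))
  refine ⟨max N₁ 4, le_max_right _ _, ?_⟩
  intro N hN
  obtain ⟨a1, a2, a5⟩ := hN₁ N ((le_max_left _ _).trans hN)
  have hN4 : (4 : ℝ) ≤ N := by exact_mod_cast a5
  have hN0 : (0 : ℝ) < N := by linarith
  have hhalf : (N : ℝ) / 4 ≤ ((N / 2 : ℕ) : ℝ) := by
    have h1 : N ≤ 4 * (N / 2) := by omega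
    have h2 : (N : ℝ) ≤ 4 * ((N / 2 : ℕ) : ℝ) := by exact_mod_cast h1
    linarith
  refine ⟨?_, a2⟩
  have h1 : ((N : ℝ) / 4) ^ c₀ ≤ ((N / 2 : ℕ) : ℝ) ^ c₀ := Real.rpow_le_rpow (by positivity) hhalf hc₀.le
  have h2 : ((N : ℝ) / 4) ^ c₀ = (N : ℝ) ^ c₀ / 4 ^ c₀ := Real.div_rpow hN0.le (by norm_num) _
  have h3 : (N : ℝ) ^ c₀ = (N : ℝ) ^ (c₀ / 2) * (N : ℝ) ^ (c₀ / 2) := by
    rw [← Real.rpow_add hN0]; congr 1; ring
  have h5 : (0 : ℝ) < 4 ^ c₀ := by positivity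
  refine le_trans ?_ h1
  rw [h2, h3, le_div_iff₀ h5]
  exact mul_le_mul_of_nonneg_left a1 (by positivity)

theorem num {N N' X q F B δ A : ℝ} (hN : 1 ≤ N) (hN' : N / 4 ≤ N') (hX : 1 ≤ X) (hXN : X ^ 4 ≤ N) (hq : 0 < q)
    (hqX : q ≤ X) (hδ : 0 < δ) (hδN : (16 / δ) ^ 2 ≤ N) (hFB : F ≤ B + X) (hB : 0 ≤ B) (hA : 16 / δ ≤ A)
    (h2 : -(δ / 2 * (N' / q)) ≤ F - δ * (N' / q)) : N ≤ A * B * X := by
  have hX0 : 0 < X := by linarith
  have hN0 : 0 < N := by linarith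
  have h3 : N / 4 / X ≤ N' / q := by
    have hN'0 : 0 ≤ N' := by linarith
    exact (div_le_div_of_nonneg_right hN' hX0.le).trans (div_le_div_of_nonneg_left hN'0 hq hqX)
  have h4 : δ / 2 * (N / 4 / X) ≤ δ / 2 * (N' / q) := mul_le_mul_of_nonneg_left h3 (by positivity)
  have h5 : X * X ≤ δ / 16 * N := by
    have h6 : (16 / δ) ^ 2 * X ^ 4 ≤ N * N := mul_le_mul hδN hXN (by positivity) hN0.le
    have h8 : ((16 / δ) * (X * X)) ^ 2 ≤ N ^ 2 := by
      calc ((16 / δ) * (X * X)) ^ 2 = (16 / δ) ^ 2 * X ^ 4 := by ring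
        _ ≤ N * N := h6
        _ = _ := by ring
    have h9 : (16 / δ) * (X * X) ≤ N := (abs_le_of_sq_le_sq' h8 hN0.le).2
    have h10 : δ / 16 * ((16 / δ) * (X * X)) ≤ δ / 16 * N := mul_le_mul_of_nonneg_left h9 (by positivity)
    have e : δ / 16 * ((16 / δ) * (X * X)) = X * X := by field_simp
    linarith
  have h6 : X ≤ δ / 16 * (N / X) := by
    rw [mul_div_assoc', le_div_iff₀ hX0]; exact h5
  have h7 : δ / 16 * (N / X) ≤ B := by
    have e : δ / 2 * (N / 4 / X) = 2 * (δ / 16 * (N / X)) := by ring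
    linarith
  have h9 : δ / 16 * N ≤ B * X := by
    rw [mul_div_assoc', div_le_iff₀ hX0] at h7; exact h7
  have h10 := mul_le_mul_of_nonneg_left h9 (by positivity : 0 ≤ 16 / δ)
  have e : 16 / δ * (δ / 16 * N) = N := by field_simp
  rw [e] at h10
  have h11 : 16 / δ * (B * X) ≤ A * (B * X) := mul_le_mul_of_nonneg_right hA (by positivity)
  linarith

/-- The main theorem for one sign. -/
theorem long {s : ℤ} (hs : s = 1 ∨ s = -1) :
    ∃ C₁ R : ℕ, 1 ≤ C₁ ∧ 8 ≤ R ∧ ∀ S : Set ℤ, Invariant S → (∃ x ∈ S, 0 < s * x) →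
      ∃ A : ℕ, 1 ≤ A ∧ ∀ N : ℕ, A ≤ N → ∀ L : ℕ, 2 ≤ L → (L ^ C₁) ^ R ≤ N → ∃ B : Finset ℤ,
        N ≤ A * B.card * L ^ C₁ ∧ (∀ b ∈ B, ∀ b' ∈ B, b < b' → b + L ≤ b') ∧
        ∀ b ∈ B, ∃ τ : ℕ, τ ≤ C₁ * Nat.log 2 L ∧ ∀ h : ℕ, h < L →
          b + h ∈ S ∧ 0 < s * (b + h) ∧ s * (b + h) ≤ N ∧ C^[τ] (b + h) = C^[τ] b := by
  obtain ⟨c₀, hc₀, hlev⟩ := (Pool.Agent.Results.MP_d02c56_nt.LevelOfDistribution.result s hs).2
  obtain ⟨K₀, hK₀⟩ := core_C
  obtain ⟨K, hK⟩ : ∃ K : ℕ, K = K₀ + 2 := ⟨_, rfl⟩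
  obtain ⟨C₁, hC₁⟩ : ∃ C₁ : ℕ, C₁ = 100000 * K := ⟨_, rfl⟩
  obtain ⟨R, hR⟩ : ∃ R : ℕ, R = ⌈2 / c₀⌉₊ + 8 := ⟨_, rfl⟩
  refine ⟨C₁, R, by omega, by omega, ?_⟩
  intro S hS hx
  obtain ⟨δ, -, hcnt, hpos⟩ := hlev S hS
  obtain ⟨hδ, -⟩ := hpos hx
  obtain ⟨N₁, hN₁4, hN₁⟩ := growth δ hc₀
  obtain ⟨N₂, hN₂⟩ := hcnt (δ / 2) (by positivity)
  set A : ℕ := max (max N₁ (2 * N₂ + 2)) ⌈16 / δ⌉₊ with hA
  have hA1 : N₁ ≤ A := (le_max_left _ _).trans (le_max_left _ _)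
  have hA2 : 2 * N₂ + 2 ≤ A := (le_max_right _ _).trans (le_max_left _ _)
  have hA3 : ⌈16 / δ⌉₊ ≤ A := le_max_right _ _
  refine ⟨A, by omega, ?_⟩
  intro N hN L hL hLN
  have hN4 : 4 ≤ N := by omega
  have hNR : (4 : ℝ) ≤ N := by exact_mod_cast hN4
  have hNR0 : (0 : ℝ) < N := by linarith
  have hNR1 : (1 : ℝ) ≤ N := by linarith
  obtain ⟨g1, g2⟩ := hN₁ N (hA1.trans hN)
  -- the length
  set k : ℕ := max K₀ (Nat.clog 2 L) with hk
  have hLk : L ≤ 2 ^ k :=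
    (Nat.le_pow_clog (by norm_num) L).trans (Nat.pow_le_pow_right (by norm_num) (le_max_right _ _))
  have hlog1 : 1 ≤ Nat.log 2 L := Nat.log_pos (by norm_num) hL
  have hclog : Nat.clog 2 L ≤ Nat.log 2 L + 1 := by
    apply Nat.clog_le_of_le_pow
    exact (Nat.lt_pow_succ_log_self (by norm_num) L).le
  have hkK : k ≤ K * Nat.log 2 L := by
    have h1 : k ≤ K₀ + (Nat.log 2 L + 1) := max_le (by omega) (by omega)
    have h2 : K₀ ≤ K₀ * Nat.log 2 L := Nat.le_mul_of_pos_right _ (by omega)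
    rw [hK, add_mul]
    omega
  obtain ⟨X, hX⟩ : ∃ X : ℕ, X = L ^ C₁ := ⟨_, rfl⟩
  rw [← hX] at hLN ⊢
  have hX2 : 2 ≤ X := by
    have : L ^ 1 ≤ L ^ C₁ := Nat.pow_le_pow_right (by omega) (by omega)
    rw [pow_one, ← hX] at this
    omega
  have hpowX : ∀ m : ℕ, m ≤ C₁ * Nat.log 2 L → 2 ^ m ≤ X := by
    intro m hm
    calc 2 ^ m ≤ 2 ^ (C₁ * Nat.log 2 L) := Nat.pow_le_pow_right (by norm_num) hm
      _ = (2 ^ Nat.log 2 L) ^ C₁ := by rw [mul_comm, pow_mul]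
      _ ≤ L ^ C₁ := Nat.pow_le_pow_left (Nat.pow_log_le_self 2 (by omega)) _
      _ = X := hX.symm
  obtain ⟨t, τ, a, ht, hτ, hmeet⟩ := hK₀ k (le_max_left _ _)
  have hτC : τ ≤ C₁ * Nat.log 2 L := by
    refine hτ.trans ?_
    rw [hC₁, mul_assoc]
    exact Nat.mul_le_mul_left _ hkK
  have htC : t + k ≤ C₁ * Nat.log 2 L := by
    have h1 : t + k ≤ 100000 * k := by omega
    refine h1.trans ?_
    rw [hC₁, mul_assoc]
    exact Nat.mul_le_mul_left _ hkK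
  have hqX : 2 ^ (t + k) ≤ X := hpowX _ htC
  have hkX : 2 ^ k ≤ X := hpowX _ (by omega)
  have hX8 : X ^ 8 ≤ N := (Nat.pow_le_pow_right (by omega) (by omega)).trans hLN
  have hX4 : 8 * X ≤ N := by
    have h1 : 2 ^ 7 ≤ X ^ 7 := Nat.pow_le_pow_left hX2 7
    have h2 : X ^ 8 = X ^ 7 * X := by ring
    rw [h2] at hX8
    nlinarith
  have hXR0 : (0 : ℝ) < X := by exact_mod_cast (by omega : 0 < X)
  have hXR1 : (1 : ℝ) ≤ X := by exact_mod_cast (by omega : 1 ≤ X)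
  have hXN : (X : ℝ) ≤ (N : ℝ) ^ (c₀ / 2) := by
    have h1 : ((X : ℝ)) ^ R ≤ N := by exact_mod_cast hLN
    have h2 : (2 / c₀) ≤ R := by
      rw [hR]; push_cast
      have := Nat.le_ceil (2 / c₀)
      linarith
    have h3 : ((X : ℝ)) ^ (2 / c₀) ≤ N := by
      refine le_trans ?_ h1
      rw [← Real.rpow_natCast]
      exact Real.rpow_le_rpow_of_exponent_le hXR1 h2
    have h4 : (((X : ℝ)) ^ (2 / c₀)) ^ (c₀ / 2) ≤ (N : ℝ) ^ (c₀ / 2) :=
      Real.rpow_le_rpow (by positivity) h3 (by positivity)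
    rw [← Real.rpow_mul hXR0.le] at h4
    have h5 : 2 / c₀ * (c₀ / 2) = 1 := by field_simp
    rwa [h5, Real.rpow_one] at h4
  -- the class
  set N' : ℕ := N / 2 with hN'
  have hN'2 : N₂ ≤ N' := by omega
  have hqR : ((2 : ℝ) ^ (t + k)) ≤ X := by exact_mod_cast hqX
  have hcount := hN₂ N' hN'2 (t + k) 0 (by
    rw [pow_zero, mul_one]
    exact hqR.trans (hXN.trans g1)) a
  simp only [pow_zero, mul_one] at hcount
  set F : Set ℤ := {n : ℤ | 0 < s * n ∧ s * n ≤ N' ∧ n ∈ S ∧ n ≡ a [ZMOD 2 ^ (t + k)]} with hF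
  have hcF' : count s S N' (2 ^ (t + k)) a = F.ncard := rfl
  have hFfin : F.Finite := by
    apply Set.Finite.subset (Set.finite_Icc (-(N' : ℤ)) N')
    intro n hn
    rw [hF] at hn
    obtain ⟨h1, h2, -⟩ := hn
    rw [Set.mem_Icc]
    rcases hs with rfl | rfl
    · constructor <;> linarith
    · constructor <;> linarith
  classical
  set B : Finset ℤ := (hFfin.toFinset).filter (fun n => (2 ^ k : ℤ) < s * n) with hB
  have hcomp : (hFfin.toFinset).card ≤ B.card + 2 ^ k := by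
    have h1 : hFfin.toFinset ⊆ B ∪ (Finset.Icc (1 : ℤ) (2 ^ k)).image (fun x => s * x) := by
      intro n hn
      rw [mem_union]
      by_cases h : (2 ^ k : ℤ) < s * n
      · left; rw [hB, mem_filter]; exact ⟨hn, h⟩
      · right
        rw [mem_image]
        rw [Set.Finite.mem_toFinset] at hn
        refine ⟨s * n, ?_, ?_⟩
        · rw [mem_Icc]
          have := hn.1
          constructor
          · omega
          · push Not at h; exact h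
        · rcases hs with rfl | rfl <;> ring
    refine (card_le_card h1).trans ((card_union_le _ _).trans ?_)
    have h2 : ((Finset.Icc (1 : ℤ) (2 ^ k)).image (fun x => s * x)).card ≤ 2 ^ k := by
      refine card_image_le.trans ?_
      rw [Int.card_Icc]
      simp
    omega
  have hBcard : N ≤ A * B.card * X := by
    have h1 : (F.ncard : ℝ) ≤ B.card + X := by
      rw [Set.ncard_eq_toFinset_card F hFfin]
      exact_mod_cast hcomp.trans (by omega)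
    have h2 := (abs_le.1 hcount).1
    rw [hcF'] at h2
    have h3' : (N : ℝ) / 4 ≤ N' := by
      have h1 : N ≤ 4 * (N / 2) := by omega
      have h2 : (N : ℝ) ≤ 4 * ((N / 2 : ℕ) : ℝ) := by exact_mod_cast h1
      linarith
    have h7 : (X : ℝ) ^ 4 ≤ N := by
      have : X ^ 4 ≤ N := (Nat.pow_le_pow_right (by omega) (by omega)).trans hX8
      exact_mod_cast this
    have h9 : 16 / δ ≤ A := (Nat.le_ceil _).trans (by exact_mod_cast hA3)
    have h10 := num hNR1 h3' hXR1 h7 (by positivity) hqR hδ g2 h1 (Nat.cast_nonneg _) h9 h2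
    exact_mod_cast h10
  refine ⟨B, hBcard, ?_, ?_⟩
  · intro b hb b' hb' hlt
    rw [hB, mem_filter, Set.Finite.mem_toFinset] at hb hb'
    have h1 : (2 : ℤ) ^ (t + k) ∣ b' - b := by
      have := (hb.1.2.2.2).trans (hb'.1.2.2.2).symm
      exact this.dvd
    have h2 : (2 : ℤ) ^ (t + k) ≤ b' - b := Int.le_of_dvd (by linarith) h1
    have h3 : (L : ℤ) ≤ 2 ^ (t + k) := by
      have : L ≤ 2 ^ (t + k) := hLk.trans (Nat.pow_le_pow_right (by norm_num) (by omega))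
      exact_mod_cast this
    linarith
  · intro b hb
    rw [hB, mem_filter, Set.Finite.mem_toFinset] at hb
    obtain ⟨⟨hb1, hb2, hb3, hb4⟩, hb5⟩ := hb
    refine ⟨τ, hτC, ?_⟩
    intro h hh
    have hh2 : h < 2 ^ k := hh.trans_le hLk
    have hcl : b ≡ a [ZMOD 2 ^ t] := hb4.of_dvd (pow_dvd_pow 2 (by omega))
    have hm := hmeet b hcl h hh2
    refine ⟨?_, ?_, ?_, hm⟩
    · rw [inv_iter hS τ, hm, ← inv_iter hS τ]; exact hb3
    · have h5 : (h : ℤ) < 2 ^ k := by exact_mod_cast hh2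
      rcases hs with rfl | rfl
      · have : (0 : ℤ) ≤ h := Int.natCast_nonneg h
        linarith
      · linarith
    · have h5 : (h : ℤ) < 2 ^ k := by exact_mod_cast hh2
      have h6 : (0 : ℤ) ≤ h := Int.natCast_nonneg h
      have h7 : ((N' : ℤ)) + 2 ^ k ≤ N := by
        have h11 : N' + 2 ^ k ≤ N := by omega
        exact_mod_cast h11
      rcases hs with rfl | rfl
      · linarith
      · linarith

end Pool.Agent.KS6_24.LI
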