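import Mathlib

/-! Affine forms of the iterates of the shortcut Collatz map on residue classes modulo powers of two,
and the motion of one form relative to another one. -/

set_option autoImplicit false

namespace Pool.Agent.KS6_24.LI

/-- The shortcut Collatz map on the integers. -/
def T (x : ℤ) : ℤ := if x % 2 = 0 then x / 2 else (3 * x + 1) / 2

/-- The Collatz map on the integers. -/
def C (x : ℤ) : ℤ := if x % 2 = 0 then x / 2 else 3 * x + 1

/-- `(a, b)` stands for the affine function `m ↦ 3 ^ a * m + b`. -/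
abbrev Form := ℕ × ℤ

/-- The value of a form. -/
def ev (m : ℤ) (f : Form) : ℤ := 3 ^ f.1 * m + f.2

/-- The form of `T ∘ f` on `m = 2 m' + d`. -/
def nx (d : ℤ) (f : Form) : Form :=
  if (f.2 + d) % 2 = 0 then (f.1, (3 ^ f.1 * d + f.2) / 2)
  else (f.1 + 1, (3 * (3 ^ f.1 * d + f.2) + 1) / 2)

/-- The letter (`true`: odd) of the form `f` at the digit `d`. -/
def ltr (d : ℤ) (f : Form) : Bool := decide ((f.2 + d) % 2 = 1)

theorem three_pow_odd (a : ℕ) : ∃ k : ℤ, (3 : ℤ) ^ a = 2 * k + 1 := Odd.pow (by decide)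

theorem par_aux (a : ℕ) (x y : ℤ) : (3 ^ a * x + y) % 2 = (y + x) % 2 := by
  obtain ⟨k, hk⟩ := three_pow_odd a
  rw [hk]
  have : (2 * k + 1) * x + y = 2 * (k * x) + (y + x) := by ring
  rw [this]; omega

theorem nx_even {d : ℤ} {f : Form} {u : ℤ} (h : 3 ^ f.1 * d + f.2 = 2 * u) : nx d f = (f.1, u) := by
  have h1 := par_aux f.1 d f.2
  rw [h] at h1
  have h2 : (f.2 + d) % 2 = 0 := by omega
  rw [nx, if_pos h2, h]
  congr 1
  omega

theorem nx_odd {d : ℤ} {f : Form} {u : ℤ} (h : 3 ^ f.1 * d + f.2 = 2 * u + 1) :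
    nx d f = (f.1 + 1, 3 * u + 2) := by
  have h1 := par_aux f.1 d f.2
  rw [h] at h1
  have h2 : ¬ (f.2 + d) % 2 = 0 := by omega
  rw [nx, if_neg h2, h]
  congr 1
  omega

theorem ltr_even {d : ℤ} {f : Form} {u : ℤ} (h : 3 ^ f.1 * d + f.2 = 2 * u) : ltr d f = false := by
  have h1 := par_aux f.1 d f.2
  rw [h] at h1
  simp only [ltr, decide_eq_false_iff_not]; omega

theorem ltr_odd {d : ℤ} {f : Form} {u : ℤ} (h : 3 ^ f.1 * d + f.2 = 2 * u + 1) : ltr d f = true := by
  have h1 := par_aux f.1 d f.2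
  rw [h] at h1
  simp only [ltr, decide_eq_true_eq]; omega

theorem dich (x : ℤ) : (∃ u, x = 2 * u) ∨ ∃ u, x = 2 * u + 1 := by
  rcases Int.even_or_odd' x with ⟨u, hu | hu⟩
  · exact Or.inl ⟨u, hu⟩
  · exact Or.inr ⟨u, hu⟩

theorem T_even (u : ℤ) : T (2 * u) = u := by
  unfold T; rw [if_pos (by omega)]; omega

theorem T_odd (u : ℤ) : T (2 * u + 1) = 3 * u + 2 := by
  unfold T; rw [if_neg (by omega)]; omega

theorem T_ev (d m : ℤ) (f : Form) : T (ev (2 * m + d) f) = ev m (nx d f) := by
  rcases dich (3 ^ f.1 * d + f.2) with ⟨u, hu⟩ | ⟨u, hu⟩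
  · rw [nx_even hu]
    have : ev (2 * m + d) f = 2 * (3 ^ f.1 * m + u) := by
      unfold ev; linarith
    rw [this, T_even]; rfl
  · rw [nx_odd hu]
    have : ev (2 * m + d) f = 2 * (3 ^ f.1 * m + u) + 1 := by
      unfold ev; linarith
    rw [this, T_odd]; simp only [ev, pow_succ]; ring

theorem C_even (u : ℤ) : C (2 * u) = u := by
  unfold C; rw [if_pos (by omega)]; omega

theorem C_odd (u : ℤ) : C (C (2 * u + 1)) = 3 * u + 2 := by
  have : C (2 * u + 1) = 2 * (3 * u + 2) := by
    unfold C; rw [if_neg (by omega)]; ring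
  rw [this, C_even]

/-- The form after the digits of a word. -/
def run : List ℤ → Form → Form
  | [], f => f
  | d :: w, f => run w (nx d f)

/-- The residue described by a word of digits. -/
def dig : List ℤ → ℤ
  | [] => 0
  | d :: w => d + 2 * dig w

theorem run_append (u w : List ℤ) (f : Form) : run (u ++ w) f = run w (run u f) := by
  induction u generalizing f with
  | nil => rfl
  | cons d u ih => exact ih _

theorem dig_append (u w : List ℤ) : dig (u ++ w) = dig u + 2 ^ u.length * dig w := by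
  induction u with
  | nil => simp [dig]
  | cons d u ih =>
    simp only [List.cons_append, dig, ih, List.length_cons, pow_succ]; ring

theorem T_run (w : List ℤ) (m : ℤ) (f : Form) :
    T^[w.length] (ev (2 ^ w.length * m + dig w) f) = ev m (run w f) := by
  induction w generalizing f with
  | nil => simp [dig, run]
  | cons d w ih =>
    rw [List.length_cons, Function.iterate_succ_apply]
    have : (2 : ℤ) ^ (w.length + 1) * m + dig (d :: w) = 2 * (2 ^ w.length * m + dig w) + d := by
      simp only [dig, pow_succ]; ring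
    rw [this, T_ev, ih]; rfl

theorem nx_fst_cases (d : ℤ) (f : Form) : (nx d f).1 = f.1 ∨ (nx d f).1 = f.1 + 1 := by
  unfold nx; split_ifs <;> simp

theorem le_nx (d : ℤ) (f : Form) : f.1 ≤ (nx d f).1 := by
  rcases nx_fst_cases d f with h | h <;> omega

theorem nx_le (d : ℤ) (f : Form) : (nx d f).1 ≤ f.1 + 1 := by
  rcases nx_fst_cases d f with h | h <;> omega

theorem le_run (w : List ℤ) (f : Form) : f.1 ≤ (run w f).1 := by
  induction w generalizing f with
  | nil => exact le_rfl
  | cons d w ih => exact (le_nx d f).trans (ih _)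

theorem run_le (w : List ℤ) (f : Form) : (run w f).1 ≤ f.1 + w.length := by
  induction w generalizing f with
  | nil => exact le_rfl
  | cons d w ih =>
    have h1 := ih (nx d f)
    have h2 := nx_le d f
    simp only [run, List.length_cons]
    omega

theorem C_run (w : List ℤ) (m : ℤ) (f : Form) :
    C^[w.length + ((run w f).1 - f.1)] (ev (2 ^ w.length * m + dig w) f) = ev m (run w f) := by
  induction w generalizing f with
  | nil => simp [dig, run]
  | cons d w ih =>
    have e1 : (2 : ℤ) ^ (w.length + 1) * m + dig (d :: w) = 2 * (2 ^ w.length * m + dig w) + d := by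
      simp only [dig, pow_succ]; ring
    rw [List.length_cons, e1]
    set M := 2 ^ w.length * m + dig w with hM
    have hle := le_run w (nx d f)
    rcases dich (3 ^ f.1 * d + f.2) with ⟨u, hu⟩ | ⟨u, hu⟩
    · have hn : nx d f = (f.1, u) := nx_even hu
      have e2 : ev (2 * M + d) f = 2 * (3 ^ f.1 * M + u) := by
        unfold ev; linarith
      have hfst : (nx d f).1 = f.1 := by rw [hn]
      have e3 : w.length + 1 + ((run (d :: w) f).1 - f.1)
          = (w.length + ((run w (nx d f)).1 - (nx d f).1)) + 1 := by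
        show w.length + 1 + ((run w (nx d f)).1 - f.1) = _
        rw [hfst]; omega
      rw [e3, Function.iterate_succ_apply, e2, C_even]
      have e4 : 3 ^ f.1 * M + u = ev M (nx d f) := by rw [hn]; rfl
      rw [e4, ih]; rfl
    · have hn : nx d f = (f.1 + 1, 3 * u + 2) := nx_odd hu
      have e2 : ev (2 * M + d) f = 2 * (3 ^ f.1 * M + u) + 1 := by
        unfold ev; linarith
      have hfst : (nx d f).1 = f.1 + 1 := by rw [hn]
      have e3 : w.length + 1 + ((run (d :: w) f).1 - f.1)
          = (w.length + ((run w (nx d f)).1 - (nx d f).1)) + 1 + 1 := by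
        show w.length + 1 + ((run w (nx d f)).1 - f.1) = _
        rw [hfst] at hle ⊢; omega
      rw [e3, Function.iterate_succ_apply, Function.iterate_succ_apply, e2, C_odd]
      have e4 : 3 * (3 ^ f.1 * M + u) + 2 = ev M (nx d f) := by
        rw [hn]; simp only [ev, pow_succ]; ring
      rw [e4, ih]; rfl

/-! ### relative motion -/

/-- One step of the position of a form relative to a lower one; `x`: letter of the lower one. -/
def ps (x : Bool) (p : ℕ × ℤ) : ℕ × ℤ :=
  if p.2 % 2 = 0 then (p.1, if x then (3 * p.2 + 1 - 3 ^ p.1) / 2 else p.2 / 2)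
  else if x then (p.1 - 1, (p.2 - 3 ^ (p.1 - 1)) / 2) else (p.1 + 1, (3 * p.2 + 1) / 2)

/-- The form with the relative position `p`. -/
def sh (f : Form) (p : ℕ × ℤ) : Form := (f.1 + p.1, 3 ^ p.1 * f.2 + p.2)

/-- The position of `z` relative to `f`. -/
def rel (f z : Form) : ℕ × ℤ := (z.1 - f.1, z.2 - 3 ^ (z.1 - f.1) * f.2)

theorem sh_rel {f z : Form} (h : f.1 ≤ z.1) : sh f (rel f z) = z := by
  obtain ⟨a, b⟩ := f
  obtain ⟨c, e⟩ := z
  simp only [sh, rel, Prod.mk.injEq]
  simp only at h
  constructor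
  · omega
  · ring

theorem rel_sh (f : Form) (p : ℕ × ℤ) : rel f (sh f p) = p := by
  obtain ⟨a, b⟩ := f
  obtain ⟨c, e⟩ := p
  simp only [sh, rel, Prod.mk.injEq]
  constructor
  · omega
  · rw [Nat.add_sub_cancel_left]; ring

theorem ps_ee {i : ℕ} (w : ℤ) : ps false (i, 2 * w) = (i, w) := by
  unfold ps; simp

theorem ps_eo {i : ℕ} {w k : ℤ} (hk : (3 : ℤ) ^ i = 2 * k + 1) :
    ps true (i, 2 * w) = (i, 3 * w - k) := by
  unfold ps
  simp only [Int.mul_emod_right, if_true, Prod.mk.injEq, true_and]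
  rw [hk]; omega

theorem ps_oe {i : ℕ} (w : ℤ) : ps false (i, 2 * w + 1) = (i + 1, 3 * w + 2) := by
  unfold ps
  rw [if_neg (by simp only; omega)]
  simp only [Bool.false_eq_true, if_false, Prod.mk.injEq, true_and]
  omega

theorem ps_oo {i : ℕ} {w k : ℤ} (hk : (3 : ℤ) ^ i = 2 * k + 1) :
    ps true (i + 1, 2 * w + 1) = (i, w - k) := by
  unfold ps
  rw [if_neg (by simp only; omega)]
  simp only [if_true, Prod.mk.injEq, Nat.add_sub_cancel, true_and]
  rw [hk]; omega

theorem nx_sh (d : ℤ) (f : Form) (p : ℕ × ℤ) (h : 1 ≤ p.1 ∨ p.2 % 2 = 0 ∨ ltr d f = false) :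
    nx d (sh f p) = sh (nx d f) (ps (ltr d f) p) := by
  obtain ⟨a, b⟩ := f
  obtain ⟨i, r⟩ := p
  obtain ⟨k, hk⟩ := three_pow_odd i
  rcases dich (3 ^ a * d + b) with ⟨u, hu⟩ | ⟨u, hu⟩ <;> rcases dich r with ⟨w, rfl⟩ | ⟨w, rfl⟩
  · rw [nx_even (f := (a, b)) hu, ltr_even (f := (a, b)) hu, ps_ee,
      nx_even (f := sh (a, b) (i, 2 * w)) (u := 3 ^ i * u + w)]
    · rfl
    · simp only [sh, pow_add]; linear_combination 3 ^ i * hu
  · rw [nx_even (f := (a, b)) hu, ltr_even (f := (a, b)) hu, ps_oe,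
      nx_odd (f := sh (a, b) (i, 2 * w + 1)) (u := 3 ^ i * u + w)]
    · simp only [sh, Prod.mk.injEq]
      refine ⟨by omega, by rw [pow_succ]; ring⟩
    · simp only [sh, pow_add]; linear_combination 3 ^ i * hu
  · rw [nx_odd (f := (a, b)) hu, ltr_odd (f := (a, b)) hu, ps_eo hk,
      nx_odd (f := sh (a, b) (i, 2 * w)) (u := 3 ^ i * u + w + k)]
    · simp only [sh, Prod.mk.injEq]
      refine ⟨by omega, by linear_combination (-2) * hk⟩
    · simp only [sh, pow_add]; linear_combination 3 ^ i * hu + hk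
  · have hi : 1 ≤ i := by
      rcases h with h | h | h
      · exact h
      · simp only at h; omega
      · rw [ltr_odd (f := (a, b)) hu] at h; exact absurd h (by decide)
    obtain ⟨j, rfl⟩ : ∃ j, i = j + 1 := ⟨i - 1, by omega⟩
    obtain ⟨l, hl⟩ := three_pow_odd j
    rw [nx_odd (f := (a, b)) hu, ltr_odd (f := (a, b)) hu, ps_oo hl,
      nx_even (f := sh (a, b) (j + 1, 2 * w + 1)) (u := 3 ^ (j + 1) * u + w + k + 1)]
    · simp only [sh, Prod.mk.injEq]
      refine ⟨by omega, ?_⟩
      rw [pow_succ] at hk ⊢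
      have h3 : k = 3 * l + 1 := by rw [hl] at hk; omega
      rw [h3]
      linear_combination (-2) * hl
    · simp only [sh, pow_add] at *; linear_combination 3 ^ (j + 1) * hu + hk

end Pool.Agent.KS6_24.LI
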