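import Pool.Agent.KS6_24.LI.State
import Pool.Graph.R_seed8.H499R2.CO.Q1

/-! A function of the relative position whose mean decreases by one in every step of the biased motion. -/

set_option autoImplicit false

namespace Pool.Agent.KS6_24.LI

open Finset
open Pool.Agent.H499R2.CO (v v_dvd v_not_dvd v_pos v_le_two_add sum_v_le)

/-- Bound for the mean waiting time at the level `i`. -/
def K (i : ℕ) (r : ℤ) : ℕ := #{t ∈ Icc 1 (v i - 1) | (2 : ℤ) ^ t ∣ r} + if (2 : ℤ) ^ v i ∣ r then 3 else 0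

theorem K_le {i : ℕ} (hi : 1 ≤ i) (r : ℤ) : K i r ≤ v i + 2 := by
  unfold K
  have h1 : #{t ∈ Icc 1 (v i - 1) | (2 : ℤ) ^ t ∣ r} ≤ v i - 1 := by
    refine (card_filter_le _ _).trans ?_
    simp
  have h3 := v_pos hi
  split_ifs <;> omega

/-- While `r` is even the potential decreases by one in the biased mean. -/
theorem K_even {i : ℕ} (hi : 1 ≤ i) (r : ℤ) (hr : r % 2 = 0) :
    11 * K i (ps true (i, r)).2 + 9 * K i (ps false (i, r)).2 + 20 ≤ 20 * K i r := by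
  obtain ⟨a, ha⟩ : ∃ a, r = 2 * a := ⟨r / 2, by omega⟩
  obtain ⟨m, hm⟩ := three_pow_odd i
  subst ha
  rw [ps_ee, ps_eo hm]
  simp only
  set r := 2 * a with ha
  have hv := v_pos hi
  have hvd := v_dvd (i := i)
  have hvn := v_not_dvd hi
  have d1 : ∀ t : ℕ, (2 : ℤ) ^ t ∣ a ↔ (2 : ℤ) ^ (t + 1) ∣ r := by
    intro t
    rw [ha, pow_succ, mul_comm (2 : ℤ) a]
    exact (mul_dvd_mul_iff_right (by norm_num)).symm
  have d2 : ∀ t : ℕ, (2 : ℤ) ^ t ∣ 3 * a - m ↔ (2 : ℤ) ^ (t + 1) ∣ 3 * r - (3 ^ i - 1) := by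
    intro t
    have : 3 * r - (3 ^ i - 1) = (3 * a - m) * 2 := by rw [hm, ha]; ring
    rw [this, pow_succ]
    exact (mul_dvd_mul_iff_right (by norm_num)).symm
  have c3 : ∀ t : ℕ, IsCoprime ((2 : ℤ) ^ t) 3 := fun t => IsCoprime.pow_left (by norm_num)
  have d3 : ∀ t : ℕ, t + 1 ≤ v i → ((2 : ℤ) ^ t ∣ 3 * a - m ↔ (2 : ℤ) ^ (t + 1) ∣ r) := by
    intro t ht
    rw [d2]
    have hdv : (2 : ℤ) ^ (t + 1) ∣ 3 ^ i - 1 := (pow_dvd_pow 2 ht).trans hvd
    constructor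
    · intro h
      have h2 : (2 : ℤ) ^ (t + 1) ∣ 3 * r := by
        have := dvd_add h hdv
        simpa using this
      exact (c3 (t + 1)).dvd_of_dvd_mul_left h2
    · intro h
      exact dvd_sub (h.mul_left 3) hdv
  -- counts
  have hcard : ∀ s : ℤ, (∀ t : ℕ, t + 1 ≤ v i → ((2 : ℤ) ^ t ∣ s ↔ (2 : ℤ) ^ (t + 1) ∣ r)) →
      #{t ∈ Icc 1 (v i - 1) | (2 : ℤ) ^ t ∣ s} + 1 ≤
        #{t ∈ Icc 1 (v i - 1) | (2 : ℤ) ^ t ∣ r} + if (2 : ℤ) ^ v i ∣ r then 1 else 0 := by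
    intro s hs
    have hsub : insert 1 (({t ∈ Icc 1 (v i - 1) | (2 : ℤ) ^ t ∣ s}).image (· + 1)) ⊆
        {t ∈ Icc 1 (v i) | (2 : ℤ) ^ t ∣ r} := by
      intro t ht
      rw [mem_insert, mem_image] at ht
      rw [mem_filter, mem_Icc]
      rcases ht with rfl | ⟨u, hu, rfl⟩
      · refine ⟨⟨le_rfl, hv⟩, ?_⟩
        rw [pow_one]; exact ⟨a, ha⟩
      · rw [mem_filter, mem_Icc] at hu
        exact ⟨⟨by omega, by omega⟩, (hs u (by omega)).1 hu.2⟩
    have h1 := card_le_card hsub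
    have h2 : #(insert 1 (({t ∈ Icc 1 (v i - 1) | (2 : ℤ) ^ t ∣ s}).image (· + 1))) =
        #{t ∈ Icc 1 (v i - 1) | (2 : ℤ) ^ t ∣ s} + 1 := by
      rw [card_insert_of_notMem, card_image_of_injective _ (add_left_injective 1)]
      rw [mem_image]
      rintro ⟨u, hu, hu'⟩
      rw [mem_filter, mem_Icc] at hu
      omega
    have h3 : #{t ∈ Icc 1 (v i) | (2 : ℤ) ^ t ∣ r} ≤
        #{t ∈ Icc 1 (v i - 1) | (2 : ℤ) ^ t ∣ r} + if (2 : ℤ) ^ v i ∣ r then 1 else 0 := by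
      have hI : Icc 1 (v i) = insert (v i) (Icc 1 (v i - 1)) := by
        ext t; simp only [mem_Icc, mem_insert]; omega
      rw [hI, filter_insert]
      split_ifs with h
      · exact card_insert_le _ _
      · simp
    omega
  have k1 := hcard a (fun t _ => d1 t)
  have k2 := hcard (3 * a - m) d3
  have k3 : (if (2 : ℤ) ^ v i ∣ a then 3 else 0) + (if (2 : ℤ) ^ v i ∣ 3 * a - m then 3 else 0) ≤
      if (2 : ℤ) ^ v i ∣ r then 3 else 0 := by
    by_cases p1 : (2 : ℤ) ^ v i ∣ a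
    · have q1 := (d1 _).1 p1
      have p3 : (2 : ℤ) ^ v i ∣ r := (pow_dvd_pow 2 (Nat.le_succ _)).trans q1
      have p2 : ¬ (2 : ℤ) ^ v i ∣ 3 * a - m := by
        intro h
        have h' := (d2 _).1 h
        apply hvn
        have := dvd_sub (q1.mul_left 3) h'
        simpa using this
      rw [if_pos p1, if_neg p2, if_pos p3]
    · rw [if_neg p1]
      by_cases p2 : (2 : ℤ) ^ v i ∣ 3 * a - m
      · have h' := (d2 _).1 p2
        have h2 : (2 : ℤ) ^ v i ∣ 3 * r - (3 ^ i - 1) := (pow_dvd_pow 2 (Nat.le_succ _)).trans h'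
        have h3 : (2 : ℤ) ^ v i ∣ 3 * r := by
          have := dvd_add h2 hvd
          simpa using this
        have p3 : (2 : ℤ) ^ v i ∣ r := (c3 _).dvd_of_dvd_mul_left h3
        rw [if_pos p2, if_pos p3]
      · rw [if_neg p2]; simp
  unfold K
  have k4 : ((if (2 : ℤ) ^ v i ∣ r then 1 else 0) : ℕ) * 3 = if (2 : ℤ) ^ v i ∣ r then 3 else 0 := by
    split_ifs <;> rfl
  omega

/-- The cost of the level `l`. -/
noncomputable def gg (l : ℕ) : ℝ := v (l - 1) + v (l + 1) + 3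

/-- The level part of the potential. -/
noncomputable def Wf (I i : ℕ) : ℝ := 10 * ∑ l ∈ Icc 1 I, gg l * (9 / 11 : ℝ) ^ (l - i)

theorem gg_nonneg (l : ℕ) : 0 ≤ gg l := by unfold gg; positivity

theorem gg_ge (l : ℕ) : 4 ≤ gg l := by
  have h : (1 : ℝ) ≤ v (l + 1) := by exact_mod_cast v_pos (i := l + 1) (by omega)
  have h2 : (0 : ℝ) ≤ v (l - 1) := Nat.cast_nonneg _
  unfold gg; linarith

theorem q_term {i l : ℕ} (hi : 1 ≤ i) (hl : 1 ≤ l) :
    11 / 20 * (9 / 11 : ℝ) ^ (l - (i - 1)) + 9 / 20 * (9 / 11 : ℝ) ^ (l - (i + 1))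
      = (9 / 11 : ℝ) ^ (l - i) - if l = i then 1 / 10 else 0 := by
  rcases lt_trichotomy l i with h | h | h
  · rw [if_neg h.ne, show l - (i - 1) = 0 by omega, show l - (i + 1) = 0 by omega,
      show l - i = 0 by omega]
    norm_num
  · subst h
    rw [if_pos rfl, show l - (l - 1) = 1 by omega, show l - (l + 1) = 0 by omega,
      show l - l = 0 by omega]
    norm_num
  · obtain ⟨m, rfl⟩ : ∃ m, l = i + 1 + m := ⟨l - (i + 1), by omega⟩
    rw [if_neg (by omega), show i + 1 + m - (i - 1) = m + 2 by omega,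
      show i + 1 + m - (i + 1) = m by omega, show i + 1 + m - i = m + 1 by omega, pow_add, pow_succ]
    ring

theorem Wf_drift {I i : ℕ} (hi : 1 ≤ i) (hI : i ≤ I) :
    11 / 20 * Wf I (i - 1) + 9 / 20 * Wf I (i + 1) = Wf I i - gg i := by
  have h1 : 11 / 20 * Wf I (i - 1) + 9 / 20 * Wf I (i + 1)
      = 10 * ∑ l ∈ Icc 1 I, gg l * (11 / 20 * (9 / 11 : ℝ) ^ (l - (i - 1))
        + 9 / 20 * (9 / 11 : ℝ) ^ (l - (i + 1))) := by
    unfold Wf
    rw [mul_sum, mul_sum, mul_sum, mul_sum, mul_sum, ← sum_add_distrib]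
    apply sum_congr rfl
    intro l _; ring
  rw [h1]
  have h2 : ∑ l ∈ Icc 1 I, gg l * (11 / 20 * (9 / 11 : ℝ) ^ (l - (i - 1))
        + 9 / 20 * (9 / 11 : ℝ) ^ (l - (i + 1)))
      = ∑ l ∈ Icc 1 I, gg l * (9 / 11 : ℝ) ^ (l - i) - ∑ l ∈ Icc 1 I, (if l = i then gg l * (1 / 10) else 0) := by
    rw [← sum_sub_distrib]
    apply sum_congr rfl
    intro l hl
    rw [mem_Icc] at hl
    rw [q_term hi hl.1]
    split_ifs <;> ring
  rw [h2, sum_ite_eq' (Icc 1 I) i, if_pos (by rw [mem_Icc]; exact ⟨hi, hI⟩)]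
  unfold Wf
  ring

theorem tele (I i : ℕ) :
    ∑ l ∈ Icc 1 I, ((9 / 11 : ℝ) ^ (l - (i + 1)) - (9 / 11 : ℝ) ^ (l - i)) = 1 - (9 / 11 : ℝ) ^ (I - i) := by
  induction I with
  | zero => simp
  | succ I ih =>
    rw [sum_Icc_succ_top (by omega), ih, show I + 1 - (i + 1) = I - i by omega]
    ring

theorem tele_le (I i : ℕ) :
    ∑ l ∈ Icc 1 I, ((9 / 11 : ℝ) ^ (l - (i + 1)) - (9 / 11 : ℝ) ^ (l - i)) ≤ 1 := by
  rw [tele]
  have : (0 : ℝ) ≤ (9 / 11 : ℝ) ^ (I - i) := by positivity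
  linarith

theorem q_anti {l i : ℕ} : (9 / 11 : ℝ) ^ (l - i) ≤ (9 / 11 : ℝ) ^ (l - (i + 1)) :=
  pow_le_pow_of_le_one (by norm_num) (by norm_num) (by omega)

theorem Wf_succ_le {I M : ℕ} (hM : ∀ l ≤ I + 1, v l ≤ M) (i : ℕ) :
    Wf I i ≤ Wf I (i + 1) ∧ Wf I (i + 1) ≤ Wf I i + (20 * M + 30) := by
  have hd : Wf I (i + 1) - Wf I i
      = 10 * ∑ l ∈ Icc 1 I, gg l * ((9 / 11 : ℝ) ^ (l - (i + 1)) - (9 / 11 : ℝ) ^ (l - i)) := by
    unfold Wf
    rw [← mul_sub, ← sum_sub_distrib]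
    congr 1
    apply sum_congr rfl
    intro l _; ring
  have h0 : ∀ l : ℕ, 0 ≤ (9 / 11 : ℝ) ^ (l - (i + 1)) - (9 / 11 : ℝ) ^ (l - i) :=
    fun l => sub_nonneg.2 q_anti
  constructor
  · have : 0 ≤ Wf I (i + 1) - Wf I i := by
      rw [hd]
      exact mul_nonneg (by norm_num) (sum_nonneg fun l _ => mul_nonneg (gg_nonneg l) (h0 l))
    linarith
  · have h1 : ∑ l ∈ Icc 1 I, gg l * ((9 / 11 : ℝ) ^ (l - (i + 1)) - (9 / 11 : ℝ) ^ (l - i))
        ≤ ∑ l ∈ Icc 1 I, (2 * M + 3) * ((9 / 11 : ℝ) ^ (l - (i + 1)) - (9 / 11 : ℝ) ^ (l - i)) := by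
      apply sum_le_sum
      intro l hl
      rw [mem_Icc] at hl
      apply mul_le_mul_of_nonneg_right _ (h0 l)
      have h1 : (v (l - 1) : ℝ) ≤ M := by exact_mod_cast hM _ (by omega)
      have h2 : (v (l + 1) : ℝ) ≤ M := by exact_mod_cast hM _ (by omega)
      unfold gg; linarith
    rw [← mul_sum] at h1
    have h2 := tele_le I i
    have h3 : ((2 : ℝ) * M + 3) * ∑ l ∈ Icc 1 I, ((9 / 11 : ℝ) ^ (l - (i + 1)) - (9 / 11 : ℝ) ^ (l - i))
        ≤ (2 * M + 3) * 1 := mul_le_mul_of_nonneg_left h2 (by positivity)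
    linarith

theorem Wf_mono {I : ℕ} : Monotone (Wf I) := by
  apply monotone_nat_of_le_succ
  intro i
  unfold Wf
  apply mul_le_mul_of_nonneg_left _ (by norm_num)
  apply sum_le_sum
  intro l _
  exact mul_le_mul_of_nonneg_left q_anti (gg_nonneg l)

theorem Wf_add_le {I M : ℕ} (hM : ∀ l ≤ I + 1, v l ≤ M) (i j : ℕ) :
    Wf I (i + j) ≤ Wf I i + (20 * M + 30) * j := by
  induction j with
  | zero => simp
  | succ j ih =>
    have h := (Wf_succ_le hM (i + j)).2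
    rw [← add_assoc]
    push_cast
    linarith

theorem Wf_nonneg (I i : ℕ) : 0 ≤ Wf I i :=
  mul_nonneg (by norm_num) (sum_nonneg fun l _ => mul_nonneg (gg_nonneg l) (by positivity))

/-- The top of the range has a large potential. -/
theorem Wf_top (I : ℕ) : 40 * (I : ℝ) ≤ Wf I I := by
  unfold Wf
  have h1 : ∑ l ∈ Icc 1 I, (4 : ℝ) ≤ ∑ l ∈ Icc 1 I, gg l * (9 / 11 : ℝ) ^ (l - I) := by
    apply sum_le_sum
    intro l hl
    rw [mem_Icc] at hl
    rw [show l - I = 0 by omega, pow_zero, mul_one]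
    exact gg_ge l
  rw [sum_const, Nat.card_Icc, nsmul_eq_mul] at h1
  have h2 : ((I + 1 - 1 : ℕ) : ℝ) = I := by simp
  rw [h2] at h1
  linarith

/-- The potential at `R` is linear in `R`. -/
theorem Wf_le {I M : ℕ} (hM : ∀ l ≤ I + 1, v l ≤ M) (R : ℕ) (hR : R ≤ I) :
    Wf I R ≤ 90 * R + 90 * M + 165 := by
  have h1 : ∀ l ∈ Icc 1 I, gg l * (9 / 11 : ℝ) ^ (l - R) ≤
      (if l ≤ R then gg l else 0) + 9 / 2 * (2 * M + 3) *
        ((9 / 11 : ℝ) ^ (l - (R + 1)) - (9 / 11 : ℝ) ^ (l - R)) := by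
    intro l hl
    rw [mem_Icc] at hl
    have h0 : 0 ≤ (9 / 11 : ℝ) ^ (l - (R + 1)) - (9 / 11 : ℝ) ^ (l - R) := sub_nonneg.2 q_anti
    have hg : gg l ≤ 2 * M + 3 := by
      have h1 : (v (l - 1) : ℝ) ≤ M := by exact_mod_cast hM _ (by omega)
      have h2 : (v (l + 1) : ℝ) ≤ M := by exact_mod_cast hM _ (by omega)
      unfold gg; linarith
    split_ifs with h
    · rw [show l - R = 0 by omega, show l - (R + 1) = 0 by omega]
      simp
    · obtain ⟨m, rfl⟩ : ∃ m, l = R + 1 + m := ⟨l - (R + 1), by omega⟩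
      rw [show R + 1 + m - (R + 1) = m by omega, show R + 1 + m - R = m + 1 by omega, pow_succ]
      have hp : (0 : ℝ) ≤ (9 / 11 : ℝ) ^ m := by positivity
      have h5 : gg (R + 1 + m) * ((9 / 11 : ℝ) ^ m * (9 / 11)) ≤ (2 * M + 3) * ((9 / 11 : ℝ) ^ m * (9 / 11)) :=
        mul_le_mul_of_nonneg_right hg (by positivity)
      refine h5.trans (le_of_eq ?_)
      ring
  have h2 := sum_le_sum h1
  rw [sum_add_distrib, ← mul_sum] at h2
  have h3 : (9 : ℝ) / 2 * (2 * M + 3) * ∑ l ∈ Icc 1 I, ((9 / 11 : ℝ) ^ (l - (R + 1)) - (9 / 11 : ℝ) ^ (l - R))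
      ≤ 9 / 2 * (2 * M + 3) * 1 := mul_le_mul_of_nonneg_left (tele_le I R) (by positivity)
  have h4 : ∑ l ∈ Icc 1 I, (if l ≤ R then gg l else 0) ≤ 9 * R + 3 := by
    rw [← sum_filter]
    have hset : (Icc 1 I).filter (fun l => l ≤ R) = Icc 1 R := by
      ext l; simp only [mem_filter, mem_Icc]; omega
    rw [hset]
    have e1 : ∑ l ∈ Icc 1 R, gg l = ∑ l ∈ Icc 1 R, (v (l - 1) : ℝ) + ∑ l ∈ Icc 1 R, (v (l + 1) : ℝ)
        + 3 * R := by
      simp only [gg]
      rw [sum_add_distrib, sum_add_distrib, sum_const, Nat.card_Icc, nsmul_eq_mul]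
      have h2 : ((R + 1 - 1 : ℕ) : ℝ) = R := by simp
      rw [h2]; ring
    have e2 : ∑ l ∈ Icc 1 R, (v (l - 1) : ℝ) ≤ 3 * R := by
      have h1 : ∑ l ∈ Icc 1 R, v (l - 1) ≤ ∑ j ∈ range (R + 1), v j := by
        rw [show ∑ l ∈ Icc 1 R, v (l - 1) = ∑ j ∈ range R, v j by
          rw [range_eq_Ico]
          rw [show Icc 1 R = Ico (0 + 1) (R + 1) by ext; simp]
          rw [← sum_Ico_add' (fun l => v (l - 1)) 0 R 1]
          simp]
        exact sum_le_sum_of_subset (range_subset_range.2 (by omega))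
      have := h1.trans (sum_v_le R)
      exact_mod_cast this
    have e3 : ∑ l ∈ Icc 1 R, (v (l + 1) : ℝ) ≤ 3 * (R + 1) := by
      have h1 : ∑ l ∈ Icc 1 R, v (l + 1) ≤ ∑ j ∈ range (R + 1 + 1), v j := by
        rw [show ∑ l ∈ Icc 1 R, v (l + 1) = ∑ j ∈ Ico 2 (R + 2), v j by
          rw [show Icc 1 R = Ico 1 (R + 1) by ext; simp]
          exact sum_Ico_add' (fun l => v l) 1 (R + 1) 1]
        apply sum_le_sum_of_subset
        intro x hx
        simp only [mem_Ico, mem_range] at hx ⊢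
        omega
      have := h1.trans (sum_v_le (R + 1))
      exact_mod_cast this
    rw [e1]; linarith
  unfold Wf
  linarith

/-- The waiting part. -/
noncomputable def om (I i : ℕ) (r : ℤ) : ℝ := if i = 0 ∨ I < i then 0 else (K i r : ℝ)

theorem om_nonneg (I i : ℕ) (r : ℤ) : 0 ≤ om I i r := by
  unfold om; split_ifs <;> positivity

theorem om_le {I M : ℕ} (hM : ∀ l ≤ I + 1, v l ≤ M) (i : ℕ) (r : ℤ) : om I i r ≤ M + 2 := by
  unfold om
  split_ifs with h
  · positivity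
  · push Not at h
    have h1 := K_le (i := i) (by omega) r
    have h2 := hM i (by omega)
    exact_mod_cast h1.trans (by omega)

theorem om_le_v (I i : ℕ) (r : ℤ) : om I i r ≤ v i + 2 := by
  unfold om
  split_ifs with h
  · positivity
  · push Not at h
    exact_mod_cast K_le (i := i) (by omega) r

/-- The potential of a relative position. -/
noncomputable def pot (I : ℕ) (p : ℕ × ℤ) : ℝ := Wf I p.1 + om I p.1 p.2

theorem pot_nonneg (I : ℕ) (p : ℕ × ℤ) : 0 ≤ pot I p := add_nonneg (Wf_nonneg _ _) (om_nonneg _ _ _)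

theorem Wf_le_pot (I : ℕ) (p : ℕ × ℤ) : Wf I p.1 ≤ pot I p := by
  have := om_nonneg I p.1 p.2
  unfold pot; linarith

theorem pot_le {I M : ℕ} (hM : ∀ l ≤ I + 1, v l ≤ M) (p : ℕ × ℤ) : pot I p ≤ Wf I p.1 + M + 2 := by
  have := om_le hM p.1 p.2
  unfold pot; linarith

theorem ps_fst (x : Bool) (p : ℕ × ℤ) : (ps x p).1 = p.1 ∨ (ps x p).1 = p.1 - 1 ∨ (ps x p).1 = p.1 + 1 := by
  unfold ps; split_ifs <;> simp

theorem pot_diff {I M : ℕ} (hM : ∀ l ≤ I + 1, v l ≤ M) (x : Bool) (p : ℕ × ℤ) :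
    |pot I (ps x p) - pot I p| ≤ 21 * M + 32 := by
  have hW : |Wf I (ps x p).1 - Wf I p.1| ≤ 20 * M + 30 := by
    have h0 : (0 : ℝ) ≤ 20 * M + 30 := by positivity
    rcases ps_fst x p with h | h | h
    · rw [h, sub_self, abs_zero]; exact h0
    · rcases Nat.eq_zero_or_pos p.1 with h1 | h1
      · rw [h, h1, Nat.zero_sub, sub_self, abs_zero]; exact h0
      · have h2 := Wf_succ_le hM (p.1 - 1)
        rw [show p.1 - 1 + 1 = p.1 by omega] at h2
        rw [h, abs_le]; constructor <;> linarith [h2.1, h2.2]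
    · have h2 := Wf_succ_le hM p.1
      rw [h, abs_le]; constructor <;> linarith [h2.1, h2.2]
  have h1 := om_nonneg I (ps x p).1 (ps x p).2
  have h2 := om_nonneg I p.1 p.2
  have h3 := om_le hM (ps x p).1 (ps x p).2
  have h4 := om_le hM p.1 p.2
  rw [abs_le] at hW ⊢
  unfold pot
  constructor <;> linarith [hW.1, hW.2]

/-- The potential decreases by one in the biased mean. -/
theorem drift {I : ℕ} (p : ℕ × ℤ) (h1 : 1 ≤ p.1) (h2 : p.1 ≤ I) :
    11 / 20 * pot I (ps true p) + 9 / 20 * pot I (ps false p) ≤ pot I p - 1 := by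
  obtain ⟨i, r⟩ := p
  simp only at h1 h2
  rcases dich r with ⟨w, hw⟩ | ⟨w, hw⟩
  · have hr : r % 2 = 0 := by omega
    have hK := K_even h1 r hr
    obtain ⟨k, hk⟩ := three_pow_odd i
    have e1 : (ps true (i, r)).1 = i := by rw [hw, ps_eo hk]
    have e2 : (ps false (i, r)).1 = i := by rw [hw, ps_ee]
    unfold pot om
    rw [e1, e2]
    have hn : ¬ (i = 0 ∨ I < i) := by omega
    simp only [hn, if_false]
    have hKR : 11 * (K i (ps true (i, r)).2 : ℝ) + 9 * K i (ps false (i, r)).2 + 20 ≤ 20 * K i r := by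
      exact_mod_cast hK
    linarith
  · obtain ⟨j, rfl⟩ : ∃ j, i = j + 1 := ⟨i - 1, by omega⟩
    obtain ⟨k, hk⟩ := three_pow_odd j
    have e1 : ps true (j + 1, r) = (j, w - k) := by rw [hw, ps_oo hk]
    have e2 : ps false (j + 1, r) = (j + 1 + 1, 3 * w + 2) := by rw [hw, ps_oe]
    rw [e1, e2]
    have hd := Wf_drift (I := I) h1 h2
    rw [show j + 1 - 1 = j by omega] at hd
    have o1 := om_le_v I j (w - k)
    have o2 := om_le_v I (j + 1 + 1) (3 * w + 2)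
    have o3 := om_nonneg I (j + 1) r
    have g : gg (j + 1) = v j + v (j + 1 + 1) + 3 := by
      unfold gg; rw [show j + 1 - 1 = j by omega]
    have n1 : (0 : ℝ) ≤ v j := Nat.cast_nonneg _
    have n2 : (0 : ℝ) ≤ v (j + 1 + 1) := Nat.cast_nonneg _
    unfold pot
    simp only
    linarith

theorem exp_le_quad {x : ℝ} (h : |x| ≤ 1) : Real.exp x ≤ 1 + x + x ^ 2 := by
  have := Real.abs_exp_sub_one_sub_id_le h
  rw [abs_le] at this
  linarith [this.2]

/-- The exponential moment contracts. -/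
theorem mgf {I M : ℕ} (hM : ∀ l ≤ I + 1, v l ≤ M) {μ : ℝ} (hμ : μ = 1 / (2 * (21 * M + 32) ^ 2))
    (p : ℕ × ℤ) (h1 : 1 ≤ p.1) (h2 : p.1 ≤ I) :
    11 / 20 * Real.exp (μ * pot I (ps true p)) + 9 / 20 * Real.exp (μ * pot I (ps false p))
      ≤ (1 - μ / 2) * Real.exp (μ * pot I p) := by
  set D : ℝ := 21 * M + 32 with hD
  have hDp : 32 ≤ D := by rw [hD]; have : (0 : ℝ) ≤ M := Nat.cast_nonneg _; linarith
  have hμ0 : 0 < μ := by rw [hμ]; positivity
  have hμD : μ * D ^ 2 = 1 / 2 := by rw [hμ]; field_simp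
  have hμD1 : μ * D ≤ 1 := by
    have : μ * D * 32 ≤ μ * D ^ 2 := by
      rw [pow_two, ← mul_assoc]
      exact mul_le_mul_of_nonneg_left hDp (by positivity)
    linarith
  have key : ∀ x : Bool, Real.exp (μ * pot I (ps x p)) ≤
      Real.exp (μ * pot I p) * (1 + μ * (pot I (ps x p) - pot I p) + μ / 2) := by
    intro x
    have hd := pot_diff hM x p
    rw [← hD] at hd
    set y := pot I (ps x p) - pot I p with hy
    have e1 : μ * pot I (ps x p) = μ * pot I p + μ * y := by rw [hy]; ring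
    rw [e1, Real.exp_add]
    apply mul_le_mul_of_nonneg_left _ (Real.exp_pos _).le
    have h3 : |μ * y| ≤ 1 := by
      rw [abs_mul, abs_of_pos hμ0]
      exact (mul_le_mul_of_nonneg_left hd hμ0.le).trans hμD1
    have h4 := exp_le_quad h3
    have h5 : (μ * y) ^ 2 ≤ μ / 2 := by
      have h6 : y ^ 2 ≤ D ^ 2 := sq_le_sq' (by linarith [(abs_le.1 hd).1]) (abs_le.1 hd).2
      calc (μ * y) ^ 2 = μ * (μ * y ^ 2) := by ring
        _ ≤ μ * (μ * D ^ 2) := by gcongr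
        _ = μ / 2 := by rw [hμD]; ring
    linarith
  have hdr := drift p h1 h2
  have e0 : 0 < Real.exp (μ * pot I p) := Real.exp_pos _
  calc 11 / 20 * Real.exp (μ * pot I (ps true p)) + 9 / 20 * Real.exp (μ * pot I (ps false p))
      ≤ 11 / 20 * (Real.exp (μ * pot I p) * (1 + μ * (pot I (ps true p) - pot I p) + μ / 2))
        + 9 / 20 * (Real.exp (μ * pot I p) * (1 + μ * (pot I (ps false p) - pot I p) + μ / 2)) := by
        have := key true
        have := key false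
        linarith
    _ = Real.exp (μ * pot I p) * (1 + μ * (11 / 20 * pot I (ps true p) + 9 / 20 * pot I (ps false p)
          - pot I p) + μ / 2) := by ring
    _ ≤ Real.exp (μ * pot I p) * (1 + μ * (-1) + μ / 2) := by
        apply mul_le_mul_of_nonneg_left _ e0.le
        have : μ * (11 / 20 * pot I (ps true p) + 9 / 20 * pot I (ps false p) - pot I p) ≤ μ * (-1) :=
          mul_le_mul_of_nonneg_left (by linarith) hμ0.le
        linarith
    _ = (1 - μ / 2) * Real.exp (μ * pot I p) := by ring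

/-- An explicit bound for the valuations. -/
theorem v_le_log {I l : ℕ} (hl : l ≤ I + 1) : v l ≤ Nat.log 2 (I + 1) + 2 := by
  rcases Nat.eq_zero_or_pos l with rfl | h
  · simp [v]
  · have h1 := v_le_two_add h
    have h2 : padicValNat 2 l ≤ Nat.log 2 l := padicValNat_le_nat_log l
    have h3 : Nat.log 2 l ≤ Nat.log 2 (I + 1) := Nat.log_mono_right hl
    omega

end Pool.Agent.KS6_24.LI
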