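import Pool.Agent.KS6_24.LI.Steer

/-! The recursion: the total potential pays for the time until all forms have merged. -/

set_option autoImplicit false

namespace Pool.Agent.KS6_24.LI

open Finset
open Pool.Agent.H499R2.CO (v)

theorem Sm_le_Wt {I : ℕ} {μ ν β : ℝ} (hν : 0 ≤ ν) (hβ : 0 ≤ β) (A : Finset Form) (y : Form) (G : ℝ) :
    Sm I μ A y ≤ Wt I μ ν β A y G := by
  unfold Wt
  have h1 : 1 ≤ Real.exp (β * A.card) := Real.one_le_exp (by positivity)
  have h2 : 1 ≤ 1 + ν * √ G := by have : 0 ≤ ν * √ G := by positivity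
                                  linarith
  have h3 := Sm_nonneg I μ A y
  calc Sm I μ A y = 1 * (1 * Sm I μ A y) := by ring
    _ ≤ _ := mul_le_mul h1 (mul_le_mul_of_nonneg_right h2 h3) (by linarith) (by linarith)

theorem collapse {I M : ℕ} {μ : ℝ} (hp : Par I M μ) {β : ℝ} (hβ : Real.log (12 / μ) + 3 ≤ β) (n : ℕ) :
    n < 160 * I → ∀ (A : Finset Form) (y : Form) (G : ℝ), Ok A y G →
      Wt I μ (μ / 12) β A y G ≤ Real.exp (μ / 4 * n) →
      ∃ w : List ℤ, w.length ≤ n ∧ (A.image (run w)).card ≤ 1 := by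
  have hμ := hp.pos
  have hβ3 : 3 ≤ β := by
    have : 0 ≤ Real.log (12 / μ) := by
      apply Real.log_nonneg
      rw [le_div_iff₀ hμ]
      have := hp.small; linarith
    linarith
  induction n using Nat.strong_induction_on with
  | _ n ih =>
  intro hn A y G h hW
  by_cases hA : A.card ≤ 1
  · refine ⟨[], Nat.zero_le _, ?_⟩
    exact card_image_le.trans hA
  push Not at hA
  have hS1 : 1 ≤ Sm I μ A y := one_le_Sm I hμ.le h.mem hA
  by_cases hex : ∃ z ∈ A, z ≠ y ∧ z.1 = y.1
  · obtain ⟨z, hz, hzy, hl⟩ := hex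
    obtain ⟨w, y', hw1, hok, hcard, hW1, hW2⟩ := steer hp hβ h hz hzy hl
    have e1 : Real.exp (-(μ / 4 * w.length)) * Wt I μ (μ / 12) β A y G ≤
        Real.exp (μ / 4 * ((n : ℝ) - w.length)) := by
      have h1 := mul_le_mul_of_nonneg_left hW (Real.exp_pos (-(μ / 4 * w.length))).le
      rw [← Real.exp_add] at h1
      refine h1.trans (le_of_eq ?_)
      congr 1; ring
    have hle : w.length ≤ n := by
      have h1 : 1 ≤ Real.exp (μ / 4 * ((n : ℝ) - w.length)) := hW2.trans e1
      have h2 : 0 ≤ μ / 4 * ((n : ℝ) - w.length) := by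
        by_contra hneg
        push Not at hneg
        have := Real.exp_lt_exp.2 hneg
        rw [Real.exp_zero] at this
        linarith
      have h3 : 0 ≤ (n : ℝ) - w.length := by
        by_contra hneg
        push Not at hneg
        have : μ / 4 * ((n : ℝ) - w.length) < 0 := mul_neg_of_pos_of_neg (by positivity) hneg
        linarith
      have h4 : (w.length : ℝ) ≤ n := by linarith
      exact_mod_cast h4
    have hW' : Wt I μ (μ / 12) β (A.image (run w)) y' 1 ≤ Real.exp (μ / 4 * (n - w.length : ℕ)) := by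
      rw [Nat.cast_sub hle]
      exact hW1.trans e1
    obtain ⟨w', hw'1, hw'2⟩ := ih (n - w.length) (by omega) (by omega) _ y' 1 hok hW'
    refine ⟨w ++ w', ?_, ?_⟩
    · rw [List.length_append]; omega
    · rw [image_run_append]; exact hw'2
  · push Not at hex
    have hn1 : 1 ≤ n := by
      by_contra hcon
      have h0 : n = 0 := by omega
      subst h0
      have h1 : Real.exp (β * A.card) ≤ Wt I μ (μ / 12) β A y G := by
        unfold Wt
        have h2 : 1 ≤ 1 + μ / 12 * √ G := by
          have : 0 ≤ μ / 12 * √ G := by positivity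
          linarith
        have h3 : 1 ≤ (1 + μ / 12 * √ G) * Sm I μ A y := one_le_mul_of_one_le_of_one_le h2 hS1
        exact le_mul_of_one_le_right (Real.exp_pos _).le h3
      have h2 : 1 < Real.exp (β * A.card) := by
        apply Real.one_lt_exp_iff.2
        have : (0 : ℝ) < A.card := by exact_mod_cast (by omega : 0 < A.card)
        positivity
      simp at hW
      linarith
    have hgap : ∀ z ∈ A, z ≠ y → y.1 + 1 ≤ z.1 ∧ z.1 - y.1 ≤ I := by
      intro z hz hzy
      have h1 := h.low z hz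
      have h2 := hex z hz hzy
      refine ⟨by omega, ?_⟩
      by_contra hcon
      push Not at hcon
      have h3 := term_le_Sm I μ hz hzy
      have h4 := Sm_le_Wt (I := I) (μ := μ) (ν := μ / 12) (β := β) (by positivity) (by linarith) A y G
      have h5 : Real.exp (μ * pot I (rel y z)) ≤ Real.exp (μ / 4 * n) := h3.trans (h4.trans hW)
      have h6 := Real.exp_le_exp.1 h5
      have h7 : pot I (rel y z) ≤ n / 4 := by
        have : μ * pot I (rel y z) ≤ μ * (n / 4) := by linarith
        exact le_of_mul_le_mul_left this hμ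
      have h8 := Wf_le_pot I (rel y z)
      have h9 : Wf I I ≤ Wf I (rel y z).1 := Wf_mono (by show I ≤ z.1 - y.1; omega)
      have h10 := Wf_top I
      have h11 : (n : ℝ) < 160 * I := by exact_mod_cast hn
      linarith
    obtain ⟨d, G', hok, hW1⟩ := sweep hp (by linarith : (0 : ℝ) ≤ β) h hgap
    have hW' : Wt I μ (μ / 12) β (A.image (nx d)) (nx d y) G' ≤ Real.exp (μ / 4 * (n - 1 : ℕ)) := by
      refine hW1.trans ?_
      have h1 : 1 - μ / 4 ≤ Real.exp (-(μ / 4)) := by
        have := Real.add_one_le_exp (-(μ / 4)); linarith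
      have h2 : 0 ≤ 1 - μ / 4 := by have := hp.small; linarith
      have h3 := mul_le_mul h1 hW (by
        refine le_trans (Sm_nonneg I μ A y) (Sm_le_Wt (by positivity) (by linarith) _ _ _)) (Real.exp_pos _).le
      rw [← Real.exp_add] at h3
      refine h3.trans (le_of_eq ?_)
      rw [Nat.cast_sub hn1]
      congr 1; push_cast; ring
    obtain ⟨w', hw'1, hw'2⟩ := ih (n - 1) (by omega) (by omega) _ _ G' hok hW'
    refine ⟨d :: w', ?_, ?_⟩
    · rw [List.length_cons]; omega
    · rw [image_run_cons]; exact hw'2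

/-- The bound for the initial potential. -/
theorem Wt_init {I M : ℕ} {μ : ℝ} (hp : Par I M μ) {β : ℝ} (hβ : 0 ≤ β) {A : Finset Form} {y : Form} {R : ℕ}
    (hR : R ≤ I) (hlow : ∀ z ∈ A, z.1 - y.1 ≤ R) {V : ℝ} (hV : (A.card : ℝ) ≤ V) :
    Wt I μ (μ / 12) β A y 1 ≤ Real.exp (β * V + 1 + V + μ * (90 * R + 91 * M + 167)) := by
  have hμ := hp.pos
  have hS : Sm I μ A y ≤ V * Real.exp (μ * (90 * R + 91 * M + 167)) := by
    unfold Sm
    have h1 : ∀ z ∈ A.erase y, Real.exp (μ * pot I (rel y z)) ≤ Real.exp (μ * (90 * R + 91 * M + 167)) := by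
      intro z hz
      rw [mem_erase] at hz
      apply Real.exp_le_exp.2
      apply mul_le_mul_of_nonneg_left _ hμ.le
      have h1 := pot_le hp.hM (rel y z)
      have h2 : (rel y z).1 ≤ R := hlow z hz.2
      have h3 := Wf_mono (I := I) h2
      have h4 := Wf_le hp.hM R hR
      linarith
    refine (sum_le_sum h1).trans ?_
    rw [sum_const, nsmul_eq_mul]
    apply mul_le_mul_of_nonneg_right _ (Real.exp_pos _).le
    refine le_trans ?_ hV
    exact_mod_cast card_le_card (erase_subset _ _)
  unfold Wt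
  rw [Real.sqrt_one, mul_one, Real.exp_add, Real.exp_add, Real.exp_add]
  have h1 : Real.exp (β * A.card) ≤ Real.exp (β * V) :=
    Real.exp_le_exp.2 (mul_le_mul_of_nonneg_left hV hβ)
  have h2 : 1 + μ / 12 ≤ Real.exp 1 := by
    have := hp.small
    have := Real.add_one_le_exp (1 : ℝ)
    linarith
  have h3 : V ≤ Real.exp V := by have := Real.add_one_le_exp V; linarith
  have h4 : Sm I μ A y ≤ Real.exp V * Real.exp (μ * (90 * R + 91 * M + 167)) :=
    hS.trans (mul_le_mul_of_nonneg_right h3 (Real.exp_pos _).le)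
  have h5 : (1 + μ / 12) * Sm I μ A y ≤ Real.exp 1 * (Real.exp V * Real.exp (μ * (90 * R + 91 * M + 167))) :=
    mul_le_mul h2 h4 (Sm_nonneg _ _ _ _) (Real.exp_pos _).le
  calc _ ≤ Real.exp (β * V) * (Real.exp 1 * (Real.exp V * Real.exp (μ * (90 * R + 91 * M + 167)))) :=
        mul_le_mul h1 h5 (mul_nonneg (by positivity) (Sm_nonneg _ _ _ _)) (Real.exp_pos _).le
    _ = _ := by ring

end Pool.Agent.KS6_24.LI
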