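import Pool.Agent.KS6_24.LI.Form

/-! States: a finite set of forms with a lowest one, and a bound for the diameter. -/

set_option autoImplicit false

namespace Pool.Agent.KS6_24.LI

open Finset

/-- The normalised constant term. -/
noncomputable def bt (f : Form) : ℝ := (f.2 : ℝ) / 3 ^ f.1

theorem bt_nx (d : ℤ) (f : Form) :
    bt (nx d f) = (d + bt f) / 2 + (if ltr d f then 1 / (2 * 3 ^ (f.1 + 1)) else 0) := by
  have h3 : (3 : ℝ) ^ f.1 ≠ 0 := by positivity
  rcases dich (3 ^ f.1 * d + f.2) with ⟨u, hu⟩ | ⟨u, hu⟩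
  · rw [nx_even hu, ltr_even hu]
    have hR : (3 : ℝ) ^ f.1 * d + f.2 = 2 * u := by exact_mod_cast hu
    simp only [bt, Bool.false_eq_true, if_false, add_zero]
    rw [div_eq_div_iff h3 (by norm_num)]
    field_simp
    linarith
  · rw [nx_odd hu, ltr_odd hu]
    have hR : (3 : ℝ) ^ f.1 * d + f.2 = 2 * u + 1 := by exact_mod_cast hu
    simp only [bt, if_true]
    push_cast
    rw [pow_succ]
    field_simp
    linarith

theorem bt_nx_sub (d : ℤ) (f g : Form) {e : ℕ} (hf : e ≤ f.1) (hg : e ≤ g.1) :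
    |bt (nx d f) - bt (nx d g)| ≤ |bt f - bt g| / 2 + 1 / (2 * 3 ^ (e + 1)) := by
  have key : ∀ h : Form, e ≤ h.1 → 0 ≤ (if ltr d h then (1 : ℝ) / (2 * 3 ^ (h.1 + 1)) else 0) ∧
      (if ltr d h then (1 : ℝ) / (2 * 3 ^ (h.1 + 1)) else 0) ≤ 1 / (2 * 3 ^ (e + 1)) := by
    intro h hh
    split_ifs
    · refine ⟨by positivity, ?_⟩
      apply one_div_le_one_div_of_le (by positivity)
      have : (3 : ℝ) ^ (e + 1) ≤ 3 ^ (h.1 + 1) := pow_le_pow_right₀ (by norm_num) (by omega)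
      linarith
    · exact ⟨le_rfl, by positivity⟩
  have h1 := key f hf
  have h2 := key g hg
  rw [bt_nx, bt_nx]
  set x := (if ltr d f then (1 : ℝ) / (2 * 3 ^ (f.1 + 1)) else 0)
  set y := (if ltr d g then (1 : ℝ) / (2 * 3 ^ (g.1 + 1)) else 0)
  have e1 : (d + bt f) / 2 + x - ((d + bt g) / 2 + y) = (bt f - bt g) / 2 + (x - y) := by ring
  rw [e1]
  refine (abs_add_le _ _).trans ?_
  rw [abs_div, abs_of_pos (by norm_num : (0 : ℝ) < 2)]
  have : |x - y| ≤ 1 / (2 * 3 ^ (e + 1)) := by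
    rw [abs_le]; constructor <;> linarith [h1.1, h1.2, h2.1, h2.2]
  linarith

/-- `A` is a set of forms, `y` a lowest one, `G` controls the diameter. -/
structure Ok (A : Finset Form) (y : Form) (G : ℝ) : Prop where
  mem : y ∈ A
  low : ∀ z ∈ A, y.1 ≤ z.1
  one : 1 ≤ G
  dia : ∀ z ∈ A, ∀ w ∈ A, |bt z - bt w| ≤ G / 3 ^ y.1

theorem Ok.even {A : Finset Form} {y : Form} {G : ℝ} (h : Ok A y G) {d : ℤ} (hd : ltr d y = false) :
    Ok (A.image (nx d)) (nx d y) (G / 2 + 1) := by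
  have hy1 : (nx d y).1 = y.1 := by
    rcases dich (3 ^ y.1 * d + y.2) with ⟨u, hu⟩ | ⟨u, hu⟩
    · rw [nx_even hu]
    · rw [ltr_odd hu] at hd; exact absurd hd (by decide)
  refine ⟨mem_image_of_mem _ h.mem, ?_, ?_, ?_⟩
  · intro z hz
    obtain ⟨z, hz0, rfl⟩ := mem_image.1 hz; clear hz; rename' hz0 => hz
    rw [hy1]
    exact (h.low z hz).trans (le_nx _ _)
  · have := h.one; linarith
  · intro z hz w hw
    obtain ⟨z, hz0, rfl⟩ := mem_image.1 hz; clear hz; rename' hz0 => hz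
    obtain ⟨w, hw0, rfl⟩ := mem_image.1 hw; clear hw; rename' hw0 => hw
    rw [hy1]
    refine (bt_nx_sub d z w (h.low z hz) (h.low w hw)).trans ?_
    have h1 := h.dia z hz w hw
    have h3 : (0 : ℝ) < 3 ^ y.1 := by positivity
    have e1 : (1 : ℝ) / (2 * 3 ^ (y.1 + 1)) = (1 / 6) / 3 ^ y.1 := by
      rw [pow_succ]; field_simp; norm_num
    have e2 : (G / 2 + 1) / 3 ^ y.1 = G / 3 ^ y.1 / 2 + 1 / 3 ^ y.1 := by ring
    rw [e1, e2]
    have : (1 : ℝ) / 6 / 3 ^ y.1 ≤ 1 / 3 ^ y.1 := by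
      apply div_le_div_of_nonneg_right _ h3.le; norm_num
    linarith

theorem Ok.odd {A : Finset Form} {y : Form} {G : ℝ} (h : Ok A y G) {d : ℤ} (hd : ltr d y = true)
    (hgap : ∀ z ∈ A, z ≠ y → y.1 + 1 ≤ z.1) :
    Ok (A.image (nx d)) (nx d y) ((3 * G + 1) / 2) := by
  have hy1 : (nx d y).1 = y.1 + 1 := by
    rcases dich (3 ^ y.1 * d + y.2) with ⟨u, hu⟩ | ⟨u, hu⟩
    · rw [ltr_even hu] at hd; exact absurd hd (by decide)
    · rw [nx_odd hu]
  refine ⟨mem_image_of_mem _ h.mem, ?_, ?_, ?_⟩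
  · intro z hz
    obtain ⟨z, hz0, rfl⟩ := mem_image.1 hz; clear hz; rename' hz0 => hz
    rw [hy1]
    by_cases hzy : z = y
    · rw [hzy, hy1]
    · exact (hgap z hz hzy).trans (le_nx _ _)
  · have := h.one; linarith
  · intro z hz w hw
    obtain ⟨z, hz0, rfl⟩ := mem_image.1 hz; clear hz; rename' hz0 => hz
    obtain ⟨w, hw0, rfl⟩ := mem_image.1 hw; clear hw; rename' hw0 => hw
    rw [hy1]
    refine (bt_nx_sub d z w (h.low z hz) (h.low w hw)).trans ?_
    have h1 := h.dia z hz w hw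
    have h3 : (0 : ℝ) < 3 ^ y.1 := by positivity
    have e2 : (3 * G + 1) / 2 / 3 ^ (y.1 + 1) = G / 3 ^ y.1 / 2 + 1 / (2 * 3 ^ (y.1 + 1)) := by
      rw [pow_succ]; field_simp
    rw [e2]
    linarith

/-- The digit with a prescribed letter. -/
theorem exists_digit (f : Form) (x : Bool) : ∃ d : ℤ, ltr d f = x := by
  cases x
  · refine ⟨-f.2, ?_⟩
    simp [ltr]
  · refine ⟨1 - f.2, ?_⟩
    simp [ltr]

theorem card_image_run_le (A : Finset Form) (w : List ℤ) : (A.image (run w)).card ≤ A.card := card_image_le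

theorem image_run_append (A : Finset Form) (u w : List ℤ) :
    A.image (run (u ++ w)) = (A.image (run u)).image (run w) := by
  rw [image_image]; congr 1; funext f; exact run_append u w f

theorem image_run_cons (A : Finset Form) (d : ℤ) (w : List ℤ) :
    A.image (run (d :: w)) = (A.image (nx d)).image (run w) := by
  rw [image_image]; rfl

/-- Diameter only: any word. -/
theorem dia_run (w : List ℤ) {A : Finset Form} {e : ℕ} {D : ℝ} (hlow : ∀ z ∈ A, e ≤ z.1)
    (hD : ∀ z ∈ A, ∀ z' ∈ A, |bt z - bt z'| ≤ D / 3 ^ e) :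
    ∀ z ∈ A.image (run w), ∀ z' ∈ A.image (run w), |bt z - bt z'| ≤ (D / 2 ^ w.length + 1 / 3) / 3 ^ e := by
  have h3 : (0 : ℝ) < 3 ^ e := by positivity
  have key : ∀ w : List ℤ, ∀ z z' : Form, e ≤ z.1 → e ≤ z'.1 → ∀ D : ℝ, |bt z - bt z'| ≤ D / 3 ^ e →
      |bt (run w z) - bt (run w z')| ≤ ((D - 1 / 3) / 2 ^ w.length + 1 / 3) / 3 ^ e := by
    intro w
    induction w with
    | nil => intro z z' _ _ D hD; simpa [run] using hD
    | cons d w ih =>
      intro z z' hz hz' D hD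
      have h1 := bt_nx_sub d z z' hz hz'
      have h2 : |bt (nx d z) - bt (nx d z')| ≤ (D / 2 + 1 / 6) / 3 ^ e := by
        refine h1.trans ?_
        have e1 : (1 : ℝ) / (2 * 3 ^ (e + 1)) = (1 / 6) / 3 ^ e := by
          rw [pow_succ]; field_simp; norm_num
        have e2 : (D / 2 + 1 / 6) / 3 ^ e = D / 3 ^ e / 2 + 1 / 6 / 3 ^ e := by ring
        rw [e1, e2]; linarith
      have h3 := ih (nx d z) (nx d z') (hz.trans (le_nx _ _)) (hz'.trans (le_nx _ _)) _ h2
      simp only [run, List.length_cons]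
      refine h3.trans (le_of_eq ?_)
      rw [pow_succ]
      ring
  intro z hz z' hz'
  obtain ⟨z, hz0, rfl⟩ := mem_image.1 hz; clear hz; rename' hz0 => hz
  obtain ⟨z', hz0', rfl⟩ := mem_image.1 hz'; clear hz'; rename' hz0' => hz'
  refine (key w z z' (hlow z hz) (hlow z' hz') D (hD z hz z' hz')).trans ?_
  apply div_le_div_of_nonneg_right _ h3.le
  have : (D - 1 / 3) / 2 ^ w.length ≤ D / 2 ^ w.length := by
    apply div_le_div_of_nonneg_right _ (by positivity); linarith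
  linarith

/-- Rest: the lowest form takes only even values, until the diameter is small. -/
theorem rest {A : Finset Form} {y : Form} {G : ℝ} (hy : y ∈ A) (hlow : ∀ z ∈ A, y.1 ≤ z.1)
    (hD : ∀ z ∈ A, ∀ z' ∈ A, |bt z - bt z'| ≤ G / 3 ^ y.1) (j : ℕ) (hj : 3 / 2 * G ≤ 2 ^ j) :
    ∃ w : List ℤ, w.length = j ∧ Ok (A.image (run w)) (run w y) 1 ∧ (run w y).1 = y.1 := by
  have hw : ∀ j : ℕ, ∀ y : Form, ∃ w : List ℤ, w.length = j ∧ (run w y).1 = y.1 := by
    intro j
    induction j with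
    | zero => exact fun y => ⟨[], rfl, rfl⟩
    | succ j ih =>
      intro y
      obtain ⟨d, hd⟩ := exists_digit y false
      obtain ⟨w, hw1, hw2⟩ := ih (nx d y)
      refine ⟨d :: w, by simp [hw1], ?_⟩
      have hy1 : (nx d y).1 = y.1 := by
        rcases dich (3 ^ y.1 * d + y.2) with ⟨u, hu⟩ | ⟨u, hu⟩
        · rw [nx_even hu]
        · rw [ltr_odd hu] at hd; exact absurd hd (by decide)
      simp only [run]; rw [hw2, hy1]
  obtain ⟨w, hw1, hw2⟩ := hw j y
  refine ⟨w, hw1, ⟨mem_image_of_mem _ hy, ?_, le_rfl, ?_⟩, hw2⟩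
  · intro z hz
    obtain ⟨z, hz0, rfl⟩ := mem_image.1 hz; clear hz; rename' hz0 => hz
    rw [hw2]; exact (hlow z hz).trans (le_run _ _)
  · intro z hz z' hz'
    rw [hw2]
    refine (dia_run w hlow hD z hz z' hz').trans ?_
    apply div_le_div_of_nonneg_right _ (by positivity)
    rw [hw1]
    have h2 : (0 : ℝ) < 2 ^ j := by positivity
    have : G / 2 ^ j ≤ 2 / 3 := by
      rw [div_le_iff₀ h2]; linarith
    linarith

end Pool.Agent.KS6_24.LI
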