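import Pool.Agent.KS6_24.LI.Sweep

/-! Merging two lowest forms of the same level. -/

set_option autoImplicit false

namespace Pool.Agent.KS6_24.LI

open Finset
open Pool.Agent.H499R2.CO (v)

/-- `f` and `g` can be merged by a word of length at most `t`. -/
def Mg (f g : Form) (t : ℝ) : Prop := ∃ w : List ℤ, run w f = run w g ∧ (w.length : ℝ) ≤ t

theorem Mg.symm {f g : Form} {t : ℝ} (h : Mg f g t) : Mg g f t := by
  obtain ⟨w, h1, h2⟩ := h
  exact ⟨w, h1.symm, h2⟩

theorem Mg.mono {f g : Form} {t t' : ℝ} (h : Mg f g t) (ht : t ≤ t') : Mg f g t' := by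
  obtain ⟨w, h1, h2⟩ := h
  exact ⟨w, h1, h2.trans ht⟩

theorem Mg.cons {f g : Form} {t : ℝ} (d : ℤ) (h : Mg (nx d f) (nx d g) t) : Mg f g (t + 1) := by
  obtain ⟨w, h1, h2⟩ := h
  refine ⟨d :: w, h1, ?_⟩
  rw [List.length_cons]; push_cast; linarith

theorem sh_zero (f : Form) : sh f (0, 0) = f := by simp [sh]

/-- One even step. -/
theorem Mg.e {f : Form} {i : ℕ} {w : ℤ} {t : ℝ} (h : ∀ f, Mg f (sh f (i, w)) t) : Mg f (sh f (i, 2 * w)) (t + 1) := by
  obtain ⟨d, hd⟩ := exists_digit f false
  apply Mg.cons d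
  rw [nx_sh d f _ (Or.inr (Or.inr hd)), hd, ps_ee]
  exact h _

/-- Two steps from the level `0` back to the level `0`. -/
theorem Mg.oo {f : Form} {w : ℤ} {t : ℝ} (h : ∀ f, Mg f (sh f (0, 3 * w + 2)) t) :
    Mg f (sh f (0, 2 * (2 * w + 1) + 1)) (t + 1 + 1) := by
  obtain ⟨d, hd⟩ := exists_digit f false
  apply Mg.cons d
  rw [nx_sh d f _ (Or.inr (Or.inr hd)), hd, ps_oe]
  obtain ⟨d2, hd2⟩ := exists_digit (nx d f) true
  apply Mg.cons d2
  rw [show (0 + 1, 3 * (2 * w + 1) + 2) = ((0 + 1, 2 * (3 * w + 2) + 1) : ℕ × ℤ) by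
    rw [show 3 * (2 * w + 1) + 2 = 2 * (3 * w + 2) + 1 by ring]]
  rw [nx_sh d2 _ _ (Or.inl (by simp)), hd2, ps_oo (k := 0) (by norm_num), sub_zero]
  exact h _

theorem log_gain {n m : ℕ} (hm : 1 ≤ m) (h : 6 * m ≤ 5 * n) : 2 + 12 * Real.log m ≤ 12 * Real.log n := by
  have hm' : (1 : ℝ) ≤ m := by exact_mod_cast hm
  have hR : 6 * (m : ℝ) ≤ 5 * n := by exact_mod_cast h
  have h1 : Real.log (6 / 5 * m) ≤ Real.log n := Real.log_le_log (by positivity) (by linarith)
  rw [Real.log_mul (by norm_num) (by positivity)] at h1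
  have h2 : 1 - (6 / 5 : ℝ)⁻¹ ≤ Real.log (6 / 5) := Real.one_sub_inv_le_log_of_pos (by norm_num)
  norm_num at h2
  linarith

/-- Two forms of the same level can be merged in logarithmic time. -/
theorem merge0 (n : ℕ) : ∀ r : ℤ, r.natAbs = n → r ≠ 0 → ∀ f : Form,
    Mg f (sh f (0, r)) (3 + 12 * Real.log n) := by
  induction n using Nat.strong_induction_on with
  | _ n ih =>
  -- positive case
  have pos : ∀ r : ℤ, r.natAbs = n → 0 < r → ∀ f : Form, Mg f (sh f (0, r)) (3 + 12 * Real.log n) := by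
    intro r hr hr0 f
    rcases dich r with ⟨w, rfl⟩ | ⟨w, rfl⟩
    · -- even
      have hw : w.natAbs < n := by omega
      have h1 : ∀ f, Mg f (sh f (0, w)) (3 + 12 * Real.log w.natAbs) := fun f => ih _ hw w rfl (by omega) f
      refine (Mg.e h1).mono ?_
      have := log_gain (n := n) (m := w.natAbs) (by omega) (by omega)
      linarith
    · rcases dich w with ⟨m, rfl⟩ | ⟨m, rfl⟩
      · -- r = 4 m + 1
        rcases eq_or_ne m 0 with rfl | hm
        · -- r = 1
          obtain ⟨d, hd⟩ := exists_digit f false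
          have : n = 1 := by omega
          subst this
          norm_num
          have h1 : Mg f (sh f (0, 2 * 0 + 1)) (0 + 1 + 1 + 1) := by
            apply Mg.cons d
            rw [nx_sh d f _ (Or.inr (Or.inr hd)), hd, ps_oe]
            rw [show (0 + 1, 3 * 0 + 2) = ((0 + 1, 2 * 1) : ℕ × ℤ) by norm_num]
            apply Mg.e
            intro g
            obtain ⟨d2, hd2⟩ := exists_digit g true
            have : Mg g (sh g (0 + 1, 1)) (0 + 1) := by
              apply Mg.cons d2
              rw [show (0 + 1, 1) = ((0 + 1, 2 * 0 + 1) : ℕ × ℤ) by norm_num]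
              rw [nx_sh d2 _ _ (Or.inl (by simp)), hd2, ps_oo (k := 0) (by norm_num), sub_zero, sh_zero]
              exact ⟨[], rfl, by simp⟩
            exact this
          refine Mg.mono ?_ (by norm_num : (0 : ℝ) + 1 + 1 + 1 ≤ 3)
          simpa using h1
        · -- swap
          have hm1 : 1 ≤ m := by omega
          apply Mg.symm
          have e : f = sh (sh f (0, 2 * (2 * m) + 1)) (0, 2 * (2 * (-m - 1) + 1) + 1) := by
            obtain ⟨a, b⟩ := f
            simp only [sh, Prod.mk.injEq]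
            constructor
            · omega
            · ring
          set g := sh f (0, 2 * (2 * m) + 1) with hg
          have h1 : ∀ f, Mg f (sh f (0, 3 * (-m - 1) + 2)) (3 + 12 * Real.log ((3 * (-m - 1) + 2 : ℤ).natAbs)) :=
            fun f => ih _ (by omega) _ rfl (by omega) f
          rw [e]
          refine (Mg.oo h1).mono ?_
          have := log_gain (n := n) (m := (3 * (-m - 1) + 2 : ℤ).natAbs) (by omega) (by omega)
          linarith
      · -- r = 4 m + 3
        have h1 : ∀ f, Mg f (sh f (0, 3 * m + 2)) (3 + 12 * Real.log ((3 * m + 2 : ℤ).natAbs)) :=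
          fun f => ih _ (by omega) _ rfl (by omega) f
        refine (Mg.oo h1).mono ?_
        have := log_gain (n := n) (m := (3 * m + 2 : ℤ).natAbs) (by omega) (by omega)
        linarith
  intro r hr hr0 f
  rcases lt_or_gt_of_ne hr0 with hneg | hpos
  · have h1 := pos (-r) (by omega) (by omega) (sh f (0, r))
    have e : sh (sh f (0, r)) (0, -r) = f := by
      obtain ⟨a, b⟩ := f
      simp only [sh, Prod.mk.injEq]
      constructor
      · omega
      · ring
    rw [e] at h1
    exact h1.symm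
  · exact pos r hr hpos f

theorem merge_same {y z : Form} (hl : z.1 = y.1) (hzy : z ≠ y) {G : ℝ}
    (hd : |bt z - bt y| ≤ G / 3 ^ y.1) : Mg y z (3 + 12 * Real.log G) := by
  have h3 : (0 : ℝ) < 3 ^ y.1 := by positivity
  set r : ℤ := z.2 - y.2 with hr
  have hr0 : r ≠ 0 := by
    intro h
    apply hzy
    apply Prod.ext hl
    omega
  have e : z = sh y (0, r) := by
    obtain ⟨a, b⟩ := y
    obtain ⟨c, d⟩ := z
    simp only at hl hr
    simp only [sh, Prod.mk.injEq, hr]
    constructor
    · omega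
    · ring
  have h1 := merge0 r.natAbs r rfl hr0 y
  rw [← e] at h1
  apply h1.mono
  have hrG : ((r.natAbs : ℕ) : ℝ) ≤ G := by
    have e1 : bt z - bt y = (r : ℝ) / 3 ^ y.1 := by
      unfold bt; rw [hl, hr]; push_cast; ring
    rw [e1, abs_div, abs_of_pos h3] at hd
    have h5 := (div_le_div_iff_of_pos_right h3).1 hd
    rwa [Nat.cast_natAbs, Int.cast_abs]
  have hpos : (0 : ℝ) < (r.natAbs : ℕ) := by
    have : 0 < r.natAbs := Int.natAbs_pos.2 hr0
    exact_mod_cast this
  have := Real.log_le_log hpos hrG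
  linarith

theorem exists_low {A : Finset Form} (hA : A.Nonempty) : ∃ y ∈ A, ∀ z ∈ A, y.1 ≤ z.1 := by
  obtain ⟨y, hy, h⟩ := exists_min_image A (fun z => z.1) hA
  exact ⟨y, hy, h⟩

/-- Merge two lowest forms and rest. -/
theorem steer {I M : ℕ} {μ : ℝ} (hp : Par I M μ) {β : ℝ} (hβ : Real.log (12 / μ) + 3 ≤ β)
    {A : Finset Form} {y z₀ : Form} {G : ℝ}
    (h : Ok A y G) (hz : z₀ ∈ A) (hzy : z₀ ≠ y) (hl : z₀.1 = y.1) :
    ∃ (w : List ℤ) (y' : Form), 1 ≤ w.length ∧ Ok (A.image (run w)) y' 1 ∧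
      (A.image (run w)).card < A.card ∧
      Wt I μ (μ / 12) β (A.image (run w)) y' 1 ≤ Real.exp (-(μ / 4 * w.length)) * Wt I μ (μ / 12) β A y G ∧
      1 ≤ Real.exp (-(μ / 4 * w.length)) * Wt I μ (μ / 12) β A y G := by
  have hμ := hp.pos
  have hG0 : 0 < G := by linarith [h.one]
  have hlogG : 0 ≤ Real.log G := Real.log_nonneg h.one
  obtain ⟨w₁, hw1, hw1l⟩ := merge_same hl hzy (h.dia z₀ hz y h.mem)
  set A₁ := A.image (run w₁) with hA1
  have hA1ne : A₁.Nonempty := ⟨_, mem_image_of_mem _ h.mem⟩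
  obtain ⟨y₁, hy1, hlow1⟩ := exists_low hA1ne
  -- the second word
  set q : ℕ := ⌈2 * Real.log G⌉₊ with hq
  have hq1 : 2 * Real.log G ≤ q := Nat.le_ceil _
  have hq2 : (q : ℝ) < 2 * Real.log G + 1 := Nat.ceil_lt_add_one (by positivity)
  have hGq : G ≤ 2 ^ q := by
    have h2 : (1 : ℝ) / 2 ≤ Real.log 2 := by
      have := Real.log_two_gt_d9; linarith
    have h3 : Real.log G ≤ q * Real.log 2 := by nlinarith
    rw [← Real.log_pow] at h3
    exact (Real.log_le_log_iff hG0 (by positivity)).1 h3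
  set j : ℕ := 2 * w₁.length + 2 + q with hj
  have hy1e : y.1 ≤ y₁.1 := by
    obtain ⟨x, hx, hx'⟩ := mem_image.1 hy1
    rw [← hx']
    exact (h.low x hx).trans (le_run _ _)
  have hy1u : y₁.1 ≤ y.1 + w₁.length :=
    (hlow1 _ (mem_image_of_mem _ h.mem)).trans (run_le _ _)
  have hdia1 : ∀ a ∈ A₁, ∀ b ∈ A₁, |bt a - bt b| ≤ (2 * G * 3 ^ w₁.length) / 3 ^ y₁.1 := by
    intro a ha b hb
    have h1 := dia_run w₁ h.low h.dia a ha b hb
    refine h1.trans ?_
    have h2 : G / 2 ^ w₁.length ≤ G := div_le_self hG0.le (one_le_pow₀ (by norm_num))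
    have h3 : (3 : ℝ) ^ y₁.1 ≤ 3 ^ y.1 * 3 ^ w₁.length := by
      rw [← pow_add]; exact pow_le_pow_right₀ (by norm_num) hy1u
    rw [div_le_div_iff₀ (by positivity) (by positivity)]
    have h4 := h.one
    have h5 : G / 2 ^ w₁.length + 1 / 3 ≤ 2 * G := by linarith
    calc (G / 2 ^ w₁.length + 1 / 3) * 3 ^ y₁.1 ≤ 2 * G * (3 ^ y.1 * 3 ^ w₁.length) :=
          mul_le_mul h5 h3 (by positivity) (by positivity)
      _ = 2 * G * 3 ^ w₁.length * 3 ^ y.1 := by ring
  have hj2 : 3 / 2 * (2 * G * 3 ^ w₁.length) ≤ (2 : ℝ) ^ j := by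
    have h1 : (3 : ℝ) ^ w₁.length ≤ 4 ^ w₁.length := pow_le_pow_left₀ (by norm_num) (by norm_num) _
    have h2 : (2 : ℝ) ^ j = 4 ^ w₁.length * 4 * 2 ^ q := by
      rw [hj, pow_add, pow_add, pow_mul]; norm_num
    rw [h2]
    have h3 : 0 ≤ (4 : ℝ) ^ w₁.length := by positivity
    calc 3 / 2 * (2 * G * 3 ^ w₁.length) = 3 * (G * 3 ^ w₁.length) := by ring
      _ ≤ 4 * (2 ^ q * 4 ^ w₁.length) := by
          apply mul_le_mul (by norm_num) _ (by positivity) (by norm_num)
          exact mul_le_mul hGq h1 (by positivity) (by positivity)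
      _ = _ := by ring
  obtain ⟨w₂, hw2l, hok, hy2⟩ := rest hy1 hlow1 hdia1 j hj2
  set w := w₁ ++ w₂ with hw
  have hAw : A.image (run w) = A₁.image (run w₂) := image_run_append A w₁ w₂
  have hwl : w.length = w₁.length + j := by rw [hw, List.length_append, hw2l]
  have hwpos : 1 ≤ w.length := by rw [hwl, hj]; omega
  have hτ : (w.length : ℝ) ≤ 12 + 38 * Real.log G := by
    rw [hwl, hj]; push_cast; linarith
  -- cardinality
  have hA1' : A₁ = (A.erase y).image (run w₁) := by
    apply Subset.antisymm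
    · intro x hx
      obtain ⟨a, ha, rfl⟩ := mem_image.1 hx
      by_cases hay : a = y
      · rw [hay, hw1]
        exact mem_image_of_mem _ (mem_erase.2 ⟨hzy, hz⟩)
      · exact mem_image_of_mem _ (mem_erase.2 ⟨hay, ha⟩)
    · exact image_subset_image (erase_subset _ _)
  have hcard1 : A₁.card ≤ A.card - 1 := by
    rw [hA1', ← card_erase_of_mem h.mem]; exact card_image_le
  have hA2 : 2 ≤ A.card := by
    have : ({y, z₀} : Finset Form) ⊆ A := by
      intro x hx
      rw [mem_insert, mem_singleton] at hx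
      rcases hx with rfl | rfl
      · exact h.mem
      · exact hz
    have h2 := card_le_card this
    rw [card_pair (Ne.symm hzy)] at h2
    exact h2
  have hcard2 : (A.image (run w)).card ≤ A.card - 1 := by
    rw [hAw]; exact card_image_le.trans hcard1
  -- the sum
  set y' := run w₂ y₁ with hy'
  have hy'e : y.1 ≤ y'.1 := hy1e.trans (le_run _ _)
  have hSm : Sm I μ (A.image (run w)) y' ≤
      Real.exp (μ * ((20 * M + 30) * w.length + M + 2)) * Sm I μ A y := by
    unfold Sm
    have hsub : (A.image (run w)).erase y' ⊆ (A.erase y).image (run w) := by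
      intro x hx
      rw [mem_erase] at hx
      rw [hAw, hA1'] at hx
      rw [← image_run_append] at hx
      exact hx.2
    refine le_trans (sum_le_sum_of_subset_of_nonneg hsub (fun _ _ _ => (Real.exp_pos _).le)) ?_
    refine le_trans (sum_image_le_of_nonneg (fun _ _ => (Real.exp_pos _).le)) ?_
    rw [mul_sum]
    apply sum_le_sum
    intro z hz
    rw [mem_erase] at hz
    rw [← Real.exp_add]
    apply Real.exp_le_exp.2
    rw [← mul_add]
    apply mul_le_mul_of_nonneg_left _ hμ.le
    have h1 := pot_le hp.hM (rel y' (run w z))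
    have h2 : (rel y' (run w z)).1 ≤ (rel y z).1 + w.length := by
      show (run w z).1 - y'.1 ≤ z.1 - y.1 + w.length
      have := run_le w z
      have := h.low z hz.2
      omega
    have h3 := Wf_mono (I := I) h2
    have h4 := Wf_add_le hp.hM (rel y z).1 w.length
    have h5 := Wf_le_pot I (rel y z)
    linarith
  -- the inequality
  have hS1 : 1 ≤ Sm I μ A y := one_le_Sm I hμ.le h.mem hA2
  set S := Sm I μ A y with hS
  set E := Real.exp (μ * ((20 * M + 30) * w.length + M + 2)) with hE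
  have hM0 : (0 : ℝ) ≤ M := Nat.cast_nonneg _
  have hE1 : 1 ≤ E := Real.one_le_exp (by positivity)
  have hβ0 : 0 ≤ β := by
    have : 0 ≤ Real.log (12 / μ) := by
      apply Real.log_nonneg
      rw [le_div_iff₀ hμ]
      have := hp.small; linarith
    linarith
  have hν1 : μ / 12 ≤ 1 := by have := hp.small; linarith
  have hsq : √ G * √ G = G := Real.mul_self_sqrt hG0.le
  have hsq1 : 1 ≤ √ G := Real.one_le_sqrt.2 h.one
  have key : (1 + μ / 12) * E * Real.exp (μ / 4 * w.length) ≤ Real.exp β * (1 + μ / 12 * √ G) := by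
    have h1 : E * Real.exp (μ / 4 * w.length) ≤ Real.exp (1 / 2 * Real.log G + 1 / 10) := by
      rw [hE, ← Real.exp_add]
      apply Real.exp_le_exp.2
      have h484 := hp.mulD
      have e1 : μ * ((20 * M + 30) * w.length + M + 2) + μ / 4 * w.length
          = μ * (20 * M + 30 + 1 / 4) * w.length + μ * (M + 2) := by ring
      rw [e1]
      have h2 : μ * (20 * M + 30 + 1 / 4) ≤ 1 / 484 :=
        (mul_le_mul_of_nonneg_left (by linarith) hμ.le).trans h484
      have h3 : μ * (M + 2) ≤ 1 / 484 :=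
        (mul_le_mul_of_nonneg_left (by linarith) hμ.le).trans h484
      have h4 : μ * (20 * M + 30 + 1 / 4) * w.length ≤ 1 / 484 * w.length :=
        mul_le_mul_of_nonneg_right h2 (Nat.cast_nonneg _)
      linarith
    have h2 : Real.exp (1 / 2 * Real.log G + 1 / 10) ≤ 2 * √ G := by
      rw [Real.exp_add]
      have h3 : Real.exp (1 / 2 * Real.log G) = √ G := by
        rw [Real.sqrt_eq_rpow, Real.rpow_def_of_pos hG0]; ring_nf
      have h4 : Real.exp (1 / 10) ≤ 2 := by
        have := exp_le_quad (x := 1 / 10) (by rw [abs_of_pos (by norm_num)]; norm_num)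
        norm_num at this ⊢; linarith
      rw [h3]
      have := mul_le_mul_of_nonneg_left h4 (Real.sqrt_nonneg G)
      linarith
    have h3 : 4 * √ G ≤ Real.exp β * (μ / 12 * √ G) := by
      have h4 : Real.exp (Real.log (12 / μ) + 3) ≤ Real.exp β := Real.exp_le_exp.2 hβ
      rw [Real.exp_add, Real.exp_log (by positivity)] at h4
      have h5 : (4 : ℝ) ≤ Real.exp 3 := by
        have := Real.add_one_le_exp (3 : ℝ); linarith
      have h6 : 12 / μ * 4 ≤ Real.exp β :=
        (mul_le_mul_of_nonneg_left h5 (by positivity)).trans h4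
      have h7 : 12 / μ * 4 * (μ / 12 * √ G) ≤ Real.exp β * (μ / 12 * √ G) :=
        mul_le_mul_of_nonneg_right h6 (by positivity)
      have e : 12 / μ * 4 * (μ / 12 * √ G) = 4 * √ G := by field_simp
      linarith
    have h8 : 0 ≤ E * Real.exp (μ / 4 * w.length) := by positivity
    calc (1 + μ / 12) * E * Real.exp (μ / 4 * w.length) = (1 + μ / 12) * (E * Real.exp (μ / 4 * w.length)) := by
          ring
      _ ≤ 2 * (2 * √ G) := mul_le_mul (by linarith) (h1.trans h2) h8 (by norm_num)
      _ ≤ Real.exp β * (μ / 12 * √ G) := by linarith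
      _ ≤ Real.exp β * (1 + μ / 12 * √ G) := by
          apply mul_le_mul_of_nonneg_left _ (Real.exp_pos _).le; linarith
  have hX : Real.exp (β * (A.card - 1 : ℕ)) * ((1 + μ / 12) * (E * S)) ≤
      Real.exp (-(μ / 4 * w.length)) * Wt I μ (μ / 12) β A y G := by
    unfold Wt
    rw [← hS]
    have e1 : Real.exp (β * A.card) = Real.exp (β * (A.card - 1 : ℕ)) * Real.exp β := by
      rw [← Real.exp_add]
      congr 1
      rw [Nat.cast_sub (by omega)]
      push_cast; ring
    rw [e1, Real.exp_neg]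
    have hex : 0 < Real.exp (μ / 4 * w.length) := Real.exp_pos _
    rw [inv_mul_eq_div, le_div_iff₀ hex]
    have hc : 0 ≤ Real.exp (β * (A.card - 1 : ℕ)) * S := by positivity
    have := mul_le_mul_of_nonneg_left key hc
    calc _ = Real.exp (β * (A.card - 1 : ℕ)) * S * ((1 + μ / 12) * E * Real.exp (μ / 4 * w.length)) := by ring
      _ ≤ _ := this
      _ = _ := by ring
  refine ⟨w, y', hwpos, ?_, by omega, ?_, ?_⟩
  · rw [hAw]; exact hok
  · refine le_trans ?_ hX
    unfold Wt
    rw [Real.sqrt_one, mul_one]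
    have h1 : Real.exp (β * (A.image (run w)).card) ≤ Real.exp (β * (A.card - 1 : ℕ)) := by
      apply Real.exp_le_exp.2
      apply mul_le_mul_of_nonneg_left _ hβ0
      exact_mod_cast hcard2
    apply mul_le_mul h1 _ _ (Real.exp_pos _).le
    · apply mul_le_mul_of_nonneg_left hSm (by positivity)
    · exact mul_nonneg (by positivity) (Sm_nonneg _ _ _ _)
  · refine le_trans ?_ hX
    have h1 : 1 ≤ Real.exp (β * (A.card - 1 : ℕ)) := Real.one_le_exp (by positivity)
    have h2 : 1 ≤ (1 + μ / 12) * (E * S) := by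
      have h3 : 1 ≤ E * S := one_le_mul_of_one_le_of_one_le hE1 hS1
      have h4 : 1 ≤ 1 + μ / 12 := by linarith
      exact one_le_mul_of_one_le_of_one_le h4 h3
    exact one_le_mul_of_one_le_of_one_le h1 h2

end Pool.Agent.KS6_24.LI
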