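import Pool.Agent.KS6_24.LI.Lyap

/-! One step of the sweeping motion. -/

set_option autoImplicit false

namespace Pool.Agent.KS6_24.LI

open Finset
open Pool.Agent.H499R2.CO (v)

/-- The sum of the exponential potentials of the other forms. -/
noncomputable def Sm (I : ℕ) (μ : ℝ) (A : Finset Form) (y : Form) : ℝ :=
  ∑ z ∈ A.erase y, Real.exp (μ * pot I (rel y z))

/-- The total potential. -/
noncomputable def Wt (I : ℕ) (μ ν β : ℝ) (A : Finset Form) (y : Form) (G : ℝ) : ℝ :=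
  Real.exp (β * A.card) * ((1 + ν * √G) * Sm I μ A y)

theorem Sm_nonneg (I : ℕ) (μ : ℝ) (A : Finset Form) (y : Form) : 0 ≤ Sm I μ A y :=
  sum_nonneg fun _ _ => (Real.exp_pos _).le

theorem card_le_Sm (I : ℕ) {μ : ℝ} (hμ : 0 ≤ μ) (A : Finset Form) (y : Form) :
    ((A.erase y).card : ℝ) ≤ Sm I μ A y := by
  unfold Sm
  rw [← nsmul_one, ← sum_const]
  apply sum_le_sum
  intro z _
  exact Real.one_le_exp (mul_nonneg hμ (pot_nonneg _ _))

theorem one_le_Sm (I : ℕ) {μ : ℝ} (hμ : 0 ≤ μ) {A : Finset Form} {y : Form} (hy : y ∈ A) (hA : 2 ≤ A.card) :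
    1 ≤ Sm I μ A y := by
  refine le_trans ?_ (card_le_Sm I hμ A y)
  rw [card_erase_of_mem hy]
  have : 1 ≤ A.card - 1 := by omega
  exact_mod_cast this

theorem term_le_Sm (I : ℕ) (μ : ℝ) {A : Finset Form} {y z : Form} (hz : z ∈ A) (hzy : z ≠ y) :
    Real.exp (μ * pot I (rel y z)) ≤ Sm I μ A y :=
  single_le_sum (f := fun z => Real.exp (μ * pot I (rel y z))) (fun _ _ => (Real.exp_pos _).le)
    (mem_erase.2 ⟨hzy, hz⟩)

theorem Sm_image_le (I : ℕ) (μ : ℝ) (A : Finset Form) (y : Form) (F : Form → Form) :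
    Sm I μ (A.image F) (F y) ≤ ∑ z ∈ A.erase y, Real.exp (μ * pot I (rel (F y) (F z))) := by
  unfold Sm
  refine le_trans (sum_le_sum_of_subset_of_nonneg (t := (A.erase y).image F) ?_
    (fun _ _ _ => (Real.exp_pos _).le)) ?_
  · intro z hz
    rw [mem_erase] at hz
    obtain ⟨w, hw, rfl⟩ := mem_image.1 hz.2
    refine mem_image_of_mem _ (mem_erase.2 ⟨?_, hw⟩)
    rintro rfl
    exact hz.1 rfl
  · exact sum_image_le_of_nonneg (fun _ _ => (Real.exp_pos _).le)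

theorem sqrt_add_le' {x y : ℝ} (hx : 0 ≤ x) (hy : 0 ≤ y) : √ (x + y) ≤ √ x + √ y := by
  rw [Real.sqrt_le_left (by positivity)]
  have h1 := Real.sq_sqrt hx
  have h2 := Real.sq_sqrt hy
  have h3 := mul_nonneg (Real.sqrt_nonneg x) (Real.sqrt_nonneg y)
  nlinarith

theorem sqrt_half_le : √ (1 / 2 : ℝ) ≤ 0.70711 := by
  rw [Real.sqrt_le_left (by norm_num)]; norm_num

theorem sqrt_three_half_le : √ (3 / 2 : ℝ) ≤ 1.22475 := by
  rw [Real.sqrt_le_left (by norm_num)]; norm_num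

theorem sqrt_g0 {G : ℝ} (hG : 1 ≤ G) : √ (G / 2 + 1) ≤ 0.70711 * √ G + 1 := by
  have h1 : √ (G / 2 + 1) ≤ √ (G / 2) + √ 1 := sqrt_add_le' (by positivity) (by norm_num)
  have h2 : √ (G / 2) = √ (1 / 2) * √ G := by
    rw [← Real.sqrt_mul (by norm_num)]; congr 1; ring
  have h3 := mul_le_mul_of_nonneg_right sqrt_half_le (Real.sqrt_nonneg G)
  rw [Real.sqrt_one] at h1
  linarith

theorem sqrt_g1 {G : ℝ} (hG : 1 ≤ G) : √ ((3 * G + 1) / 2) ≤ 1.22475 * √ G + 1 := by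
  have h0 : (3 * G + 1) / 2 ≤ 3 / 2 * G + 1 := by linarith
  have h1 : √ (3 / 2 * G + 1) ≤ √ (3 / 2 * G) + √ 1 :=
    sqrt_add_le' (by positivity) (by norm_num)
  have h2 : √ (3 / 2 * G) = √ (3 / 2) * √ G := Real.sqrt_mul (by norm_num) _
  have h3 := mul_le_mul_of_nonneg_right sqrt_three_half_le (Real.sqrt_nonneg G)
  rw [Real.sqrt_one] at h1
  have := Real.sqrt_le_sqrt h0
  linarith

/-- The parameters. -/
structure Par (I M : ℕ) (μ : ℝ) : Prop where
  hM : ∀ l ≤ I + 1, v l ≤ M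
  h10 : 10 ≤ M
  hμ : μ = 1 / (2 * (21 * M + 32) ^ 2)

theorem Par.pos {I M : ℕ} {μ : ℝ} (h : Par I M μ) : 0 < μ := by
  rw [h.hμ]; positivity

theorem Par.mulD {I M : ℕ} {μ : ℝ} (h : Par I M μ) : μ * (21 * M + 32) ≤ 1 / 484 := by
  have hM : (10 : ℝ) ≤ M := by exact_mod_cast h.h10
  have : (242 : ℝ) ≤ 21 * M + 32 := by linarith
  rw [h.hμ, pow_two, div_mul_eq_mul_div, one_mul, div_le_div_iff₀ (by positivity) (by norm_num)]
  nlinarith

theorem Par.small {I M : ℕ} {μ : ℝ} (h : Par I M μ) : μ ≤ 1 / 100000 := by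
  have hM : (10 : ℝ) ≤ M := by exact_mod_cast h.h10
  have h1 : (242 : ℝ) ≤ 21 * M + 32 := by linarith
  rw [h.hμ]
  apply one_div_le_one_div_of_le (by norm_num)
  nlinarith

theorem Par.exp_le {I M : ℕ} {μ : ℝ} (h : Par I M μ) : Real.exp (μ * (21 * M + 32)) ≤ 1.0021 := by
  have h1 := h.mulD
  have h2 : Real.exp (μ * (21 * M + 32)) ≤ Real.exp (1 / 484) := Real.exp_le_exp.2 h1
  have h3 := exp_le_quad (x := 1 / 484) (by rw [abs_of_pos (by norm_num)]; norm_num)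
  have h4 : (1 : ℝ) + 1 / 484 + (1 / 484) ^ 2 ≤ 1.0021 := by norm_num
  exact h2.trans (h3.trans h4)

/-- One sweeping step. -/
theorem sweep {I M : ℕ} {μ : ℝ} (hp : Par I M μ) {β : ℝ} (hβ : 0 ≤ β) {A : Finset Form} {y : Form} {G : ℝ}
    (h : Ok A y G) (hgap : ∀ z ∈ A, z ≠ y → y.1 + 1 ≤ z.1 ∧ z.1 - y.1 ≤ I) :
    ∃ d G', Ok (A.image (nx d)) (nx d y) G' ∧
      Wt I μ (μ / 12) β (A.image (nx d)) (nx d y) G' ≤ (1 - μ / 4) * Wt I μ (μ / 12) β A y G := by
  have hμ := hp.pos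
  obtain ⟨d1, hd1⟩ := exists_digit y true
  obtain ⟨d0, hd0⟩ := exists_digit y false
  set U : Bool → ℝ := fun x => ∑ z ∈ A.erase y, Real.exp (μ * pot I (ps x (rel y z))) with hU
  have hU0 : ∀ x, 0 ≤ U x := fun x => sum_nonneg fun _ _ => (Real.exp_pos _).le
  have hS : ∀ d x, ltr d y = x → Sm I μ (A.image (nx d)) (nx d y) ≤ U x := by
    intro d x hx
    refine (Sm_image_le I μ A y (nx d)).trans (le_of_eq ?_)
    rw [hU]
    apply sum_congr rfl
    intro z hz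
    rw [mem_erase] at hz
    have hg := hgap z hz.2 hz.1
    have e1 : nx d z = sh (nx d y) (ps (ltr d y) (rel y z)) := by
      rw [← nx_sh, sh_rel (h.low z hz.2)]
      left
      show 1 ≤ z.1 - y.1
      omega
    rw [e1, rel_sh, hx]
  have hmgf : 11 / 20 * U true + 9 / 20 * U false ≤ (1 - μ / 2) * Sm I μ A y := by
    simp only [hU, Sm]
    rw [mul_sum, mul_sum, mul_sum, ← sum_add_distrib]
    apply sum_le_sum
    intro z hz
    rw [mem_erase] at hz
    have hg := hgap z hz.2 hz.1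
    apply mgf hp.hM hp.hμ
    · show 1 ≤ z.1 - y.1
      omega
    · exact hg.2
  have hUS : ∀ x, U x ≤ 1.0021 * Sm I μ A y := by
    intro x
    simp only [hU, Sm]
    rw [mul_sum]
    apply sum_le_sum
    intro z hz
    have h1 := pot_diff hp.hM x (rel y z)
    have h2 : pot I (ps x (rel y z)) ≤ pot I (rel y z) + (21 * M + 32) := by
      linarith [(abs_le.1 h1).2]
    have h3 : Real.exp (μ * pot I (ps x (rel y z))) ≤
        Real.exp (μ * (21 * M + 32)) * Real.exp (μ * pot I (rel y z)) := by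
      rw [← Real.exp_add]
      apply Real.exp_le_exp.2
      have := mul_le_mul_of_nonneg_left h2 hμ.le
      linarith
    refine h3.trans (mul_le_mul_of_nonneg_right hp.exp_le (Real.exp_pos _).le)
  have hS0 := Sm_nonneg I μ A y
  set S := Sm I μ A y with hSdef
  have hGs : 0 ≤ √ G := Real.sqrt_nonneg G
  have hsm := hp.small
  have g0 := sqrt_g0 h.one
  have g1 := sqrt_g1 h.one
  have mean : 11 / 20 * ((1 + μ / 12 * √ ((3 * G + 1) / 2)) * U true)
      + 9 / 20 * ((1 + μ / 12 * √ (G / 2 + 1)) * U false) ≤ (1 - μ / 4) * ((1 + μ / 12 * √ G) * S) := by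
    have a1 : √ ((3 * G + 1) / 2) * U true ≤ (1.22475 * √ G + 1) * (1.0021 * S) :=
      mul_le_mul g1 (hUS true) (hU0 true) (by positivity)
    have a0 : √ (G / 2 + 1) * U false ≤ (0.70711 * √ G + 1) * (1.0021 * S) :=
      mul_le_mul g0 (hUS false) (hU0 false) (by positivity)
    have b1 : 11 / 20 * (√ ((3 * G + 1) / 2) * U true) + 9 / 20 * (√ (G / 2 + 1) * U false)
        ≤ 0.994 * (√ G * S) + 1.0021 * S := by
      have hGS : 0 ≤ √ G * S := mul_nonneg hGs hS0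
      have c1 : 11 / 20 * ((1.22475 * √ G + 1) * (1.0021 * S)) + 9 / 20 * ((0.70711 * √ G + 1) * (1.0021 * S))
          = (11 / 20 * 1.22475 * 1.0021 + 9 / 20 * 0.70711 * 1.0021) * (√ G * S) + 1.0021 * S := by ring
      have c2 : (11 / 20 * 1.22475 * 1.0021 + 9 / 20 * 0.70711 * 1.0021 : ℝ) ≤ 0.994 := by norm_num
      have c3 := mul_le_mul_of_nonneg_right c2 hGS
      linarith
    have b2 : μ / 12 * (11 / 20 * (√ ((3 * G + 1) / 2) * U true) + 9 / 20 * (√ (G / 2 + 1) * U false))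
        ≤ μ / 12 * (0.994 * (√ G * S) + 1.0021 * S) := mul_le_mul_of_nonneg_left b1 (by positivity)
    have hGS : 0 ≤ μ / 12 * (√ G * S) := by positivity
    have hμS : 0 ≤ μ * S := by positivity
    have b3 : 0.994 * (μ / 12 * (√ G * S)) ≤ (1 - μ / 4) * (μ / 12 * (√ G * S)) :=
      mul_le_mul_of_nonneg_right (by linarith) hGS
    have e1 : 11 / 20 * ((1 + μ / 12 * √ ((3 * G + 1) / 2)) * U true)
      + 9 / 20 * ((1 + μ / 12 * √ (G / 2 + 1)) * U false)
      = (11 / 20 * U true + 9 / 20 * U false) +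
        μ / 12 * (11 / 20 * (√ ((3 * G + 1) / 2) * U true) + 9 / 20 * (√ (G / 2 + 1) * U false)) := by ring
    have e2 : μ / 12 * (0.994 * (√ G * S) + 1.0021 * S) = 0.994 * (μ / 12 * (√ G * S)) + 1.0021 / 12 * (μ * S) := by
      ring
    have e3 : (1 - μ / 4) * ((1 + μ / 12 * √ G) * S) = (1 - μ / 4) * (μ / 12 * (√ G * S)) + S - 1 / 4 * (μ * S) := by
      ring
    have e4 : (1 - μ / 2) * S = S - 1 / 2 * (μ * S) := by ring
    rw [e1, e3]
    rw [e2] at b2
    rw [e4] at hmgf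
    linarith
  have hn1 : ∀ G' : ℝ, 0 ≤ 1 + μ / 12 * √ G' := fun G' => by positivity
  have fin : ∀ d G' x, ltr d y = x → (1 + μ / 12 * √ G') * U x ≤ (1 - μ / 4) * ((1 + μ / 12 * √ G) * S) →
      Wt I μ (μ / 12) β (A.image (nx d)) (nx d y) G' ≤ (1 - μ / 4) * Wt I μ (μ / 12) β A y G := by
    intro d G' x hx hle
    unfold Wt
    have h1 : Real.exp (β * (A.image (nx d)).card) ≤ Real.exp (β * A.card) := by
      apply Real.exp_le_exp.2
      apply mul_le_mul_of_nonneg_left _ hβ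
      exact_mod_cast card_image_le
    have h2 : (1 + μ / 12 * √ G') * Sm I μ (A.image (nx d)) (nx d y) ≤ (1 + μ / 12 * √ G') * U x :=
      mul_le_mul_of_nonneg_left (hS d x hx) (hn1 G')
    have h3 : 0 ≤ (1 + μ / 12 * √ G') * Sm I μ (A.image (nx d)) (nx d y) :=
      mul_nonneg (hn1 G') (Sm_nonneg _ _ _ _)
    calc _ ≤ Real.exp (β * A.card) * ((1 + μ / 12 * √ G') * Sm I μ (A.image (nx d)) (nx d y)) :=
          mul_le_mul_of_nonneg_right h1 h3
      _ ≤ Real.exp (β * A.card) * ((1 - μ / 4) * ((1 + μ / 12 * √ G) * S)) :=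
          mul_le_mul_of_nonneg_left (h2.trans hle) (Real.exp_pos _).le
      _ = _ := by ring
  by_cases hc : (1 + μ / 12 * √ ((3 * G + 1) / 2)) * U true ≤ (1 - μ / 4) * ((1 + μ / 12 * √ G) * S)
  · exact ⟨d1, (3 * G + 1) / 2, h.odd hd1 (fun z hz hzy => (hgap z hz hzy).1), fin d1 _ true hd1 hc⟩
  · refine ⟨d0, G / 2 + 1, h.even hd0, fin d0 _ false hd0 ?_⟩
    push Not at hc
    linarith

end Pool.Agent.KS6_24.LI
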